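import Mathlib

set_option autoImplicit false

open MvPolynomial

namespace Pool.Agent.Helper45.SC1

/-- A field is `C1` if every homogeneous polynomial of degree `d ≥ 1` in `n > d` variables has a
nontrivial zero. -/
def IsC1 (k : Type*) [Field k] : Prop :=
  ∀ (n d : ℕ) (f : MvPolynomial (Fin n) k), f.IsHomogeneous d → 1 ≤ d → d < n →
    ∃ x : Fin n → k, x ≠ 0 ∧ eval x f = 0

/-- there is an anisotropic system of weighted homogeneous polynomials of degrees `D i` in variables
of weights `w j` -/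
def Aniso (K : Type*) [Field K] {J I : Type*} (w : J → ℕ+) (D : I → ℕ+) : Prop :=
  ∃ G : I → MvPolynomial J K, (∀ i, IsWeightedHomogeneous (fun j => (w j : ℕ)) (G i) (D i : ℕ)) ∧
    ∀ y : J → K, (∀ i, eval y (G i) = 0) → y = 0

section rules

variable {K : Type*} [Field K] {J I J' I' L A : Type*}

lemma comp_wh {w : J → ℕ} {D : I → ℕ} {e : ℕ} {G : I → MvPolynomial J K}
    (hG : ∀ i, IsWeightedHomogeneous w (G i) (D i)) {H : MvPolynomial I K}
    (hH : IsWeightedHomogeneous D H e) : IsWeightedHomogeneous w (aeval G H) e := by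
  rw [H.as_sum, map_sum]
  apply IsWeightedHomogeneous.sum
  intro d hd
  have hd' : Finsupp.weight D d = e := hH (mem_support_iff.1 hd)
  rw [aeval_monomial, algebraMap_eq]
  have h1 : IsWeightedHomogeneous w (d.prod fun i k => G i ^ k) (∑ i ∈ d.support, d i • D i) :=
    IsWeightedHomogeneous.prod _ _ _ fun i _ => (hG i).pow (d i)
  have h2 : (∑ i ∈ d.support, d i • D i) = e := by
    rw [← hd', Finsupp.weight_apply, Finsupp.sum]
  rw [h2] at h1
  exact h1.C_mul _

lemma eval_aeval (G : I → MvPolynomial J K) (H : MvPolynomial I K) (y : J → K) :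
    eval y (aeval G H) = eval (fun i => eval y (G i)) H := by
  rw [← coe_aeval_eq_eval, ← coe_aeval_eq_eval]
  simp only [RingHom.coe_coe]
  rw [← AlgHom.comp_apply, comp_aeval]

lemma Aniso.refl (w : J → ℕ+) : Aniso K w w :=
  ⟨fun i => X i, fun i => isWeightedHomogeneous_X K (fun j => (w j : ℕ)) i,
    fun y hy => funext fun i => by simpa using hy i⟩

lemma Aniso.trans {w : J → ℕ+} {D : I → ℕ+} {E : L → ℕ+} (h1 : Aniso K w D)
    (h2 : Aniso K D E) : Aniso K w E := by
  obtain ⟨G, hG, hG0⟩ := h1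
  obtain ⟨H, hH, hH0⟩ := h2
  refine ⟨fun l => aeval G (H l), fun l => comp_wh hG (hH l), fun y hy => ?_⟩
  apply hG0 y
  have := hH0 (fun i => eval y (G i)) fun l => by rw [← eval_aeval]; exact hy l
  exact fun i => congrFun this i

/-- union of systems -/
lemma Aniso.sum {w : J → ℕ+} {D : I → ℕ+} {w' : J' → ℕ+} {D' : I' → ℕ+} (h1 : Aniso K w D)
    (h2 : Aniso K w' D') : Aniso K (Sum.elim w w') (Sum.elim D D') := by
  obtain ⟨G, hG, hG0⟩ := h1
  obtain ⟨H, hH, hH0⟩ := h2
  refine ⟨Sum.elim (fun i => aeval (fun j => X (Sum.inl j)) (G i))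
    (fun i => aeval (fun j => X (Sum.inr j)) (H i)), ?_, ?_⟩
  · rintro (i | i)
    · exact comp_wh (fun j => isWeightedHomogeneous_X K _ (Sum.inl j)) (hG i)
    · exact comp_wh (fun j => isWeightedHomogeneous_X K _ (Sum.inr j)) (hH i)
  · intro y hy
    have e1 := hG0 (fun j => y (Sum.inl j)) fun i => by
      have := hy (Sum.inl i)
      simpa only [Sum.elim_inl, eval_aeval, eval_X] using this
    have e2 := hH0 (fun j => y (Sum.inr j)) fun i => by
      have := hy (Sum.inr i)
      simpa only [Sum.elim_inr, eval_aeval, eval_X] using this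
    funext j
    rcases j with j | j
    · exact congrFun e1 j
    · exact congrFun e2 j

/-- families of systems -/
lemma Aniso.fam {w : A → J → ℕ+} {D : A → I → ℕ+} (h : ∀ a, Aniso K (w a) (D a)) :
    Aniso K (fun p : A × J => w p.1 p.2) (fun p : A × I => D p.1 p.2) := by
  choose G hG hG0 using h
  refine ⟨fun p => aeval (fun j => X (p.1, j)) (G p.1 p.2), ?_, ?_⟩
  · rintro ⟨a, i⟩
    exact comp_wh (fun j => isWeightedHomogeneous_X K (fun p : A × J => (w p.1 p.2 : ℕ)) (a, j))
      (hG a i)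
  · intro y hy
    funext p
    have e1 := hG0 p.1 (fun j => y (p.1, j)) fun i => by
      have := hy (p.1, i)
      simpa only [eval_aeval, eval_X] using this
    exact congrFun e1 p.2

lemma scale_wh {w : J → ℕ} {G : MvPolynomial J K} {e : ℕ} (c : ℕ)
    (hG : IsWeightedHomogeneous w G e) : IsWeightedHomogeneous (fun j => c * w j) G (c * e) := by
  intro d hd
  have := hG hd
  rw [← this, Finsupp.weight_apply, Finsupp.weight_apply, Finsupp.sum, Finsupp.sum,
    Finset.mul_sum]
  apply Finset.sum_congr rfl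
  intro i _
  simp only [smul_eq_mul]
  ring

lemma Aniso.scale {w : J → ℕ+} {D : I → ℕ+} (c : ℕ+) (h1 : Aniso K w D) :
    Aniso K (fun j => c * w j) (fun i => c * D i) := by
  obtain ⟨G, hG, hG0⟩ := h1
  refine ⟨G, fun i => ?_, hG0⟩
  have := scale_wh (c : ℕ) (hG i)
  simpa only [PNat.mul_coe] using this

lemma Aniso.reindexJ {w : J → ℕ+} {D : I → ℕ+} (h : Aniso K w D) (e : J' ≃ J) :
    Aniso K (fun j => w (e j)) D := by
  obtain ⟨G, hG, hG0⟩ := h
  refine ⟨fun i => aeval (fun j => X (e.symm j)) (G i), fun i => ?_, fun y hy => ?_⟩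
  · refine comp_wh (fun j => ?_) (hG i)
    have := isWeightedHomogeneous_X K (fun j => ((w (e j) : ℕ+) : ℕ)) (e.symm j)
    simpa only [Equiv.apply_symm_apply] using this
  · have e1 := hG0 (fun j => y (e.symm j)) fun i => by
      have := hy i
      simpa only [eval_aeval, eval_X] using this
    funext j
    have := congrFun e1 (e j)
    simpa using this

lemma Aniso.reindexI {w : J → ℕ+} {D : I → ℕ+} (h : Aniso K w D) (e : I' ≃ I) :
    Aniso K w (fun i => D (e i)) := by
  obtain ⟨G, hG, hG0⟩ := h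
  refine ⟨fun i => G (e i), fun i => hG (e i), fun y hy => hG0 y fun i => ?_⟩
  have := hy (e.symm i)
  simpa using this

/-- product of systems -/
lemma Aniso.mul {w : J → ℕ+} {D : I → ℕ+} {w' : J' → ℕ+} {D' : I' → ℕ+} (h1 : Aniso K w D)
    (h2 : Aniso K w' D') : Aniso K (fun p : J × J' => w p.1 * w' p.2)
      (fun p : I × I' => D p.1 * D' p.2) := by
  have e1 : Aniso K (fun p : J × J' => w p.1 * w' p.2) (fun p : J × I' => w p.1 * D' p.2) :=
    Aniso.fam fun j => h2.scale (w j)
  have e2 : Aniso K (fun p : I' × J => D' p.1 * w p.2) (fun p : I' × I => D' p.1 * D p.2) :=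
    Aniso.fam fun k => h1.scale (D' k)
  have e3 := (e2.reindexJ (Equiv.prodComm J I')).reindexI (Equiv.prodComm I I')
  have e4 : Aniso K (fun p : J × I' => w p.1 * D' p.2) (fun p : I × I' => D p.1 * D' p.2) := by
    simpa only [Equiv.prodComm_apply, Prod.fst_swap, Prod.snd_swap, mul_comm (D' _)] using e3
  exact e1.trans e4

/-- fewer variables -/
lemma Aniso.restrict {w : J → ℕ+} {D : I → ℕ+} (h : Aniso K w D) (f : J' → J)
    (hf : Function.Injective f) : Aniso K (fun j => w (f j)) D := by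
  classical
  obtain ⟨G, hG, hG0⟩ := h
  let g : J → MvPolynomial J' K := fun j => if h : ∃ j', f j' = j then X h.choose else 0
  have hg : ∀ j', g (f j') = X j' := by
    intro j'
    have hex : ∃ j'', f j'' = f j' := ⟨j', rfl⟩
    simp only [g, dif_pos hex]
    rw [hf hex.choose_spec]
  refine ⟨fun i => aeval g (G i), fun i => ?_, fun y hy => ?_⟩
  · refine comp_wh (fun j => ?_) (hG i)
    by_cases hex : ∃ j', f j' = j
    · obtain ⟨j', rfl⟩ := hex
      rw [hg]
      exact isWeightedHomogeneous_X K (fun j => ((w (f j) : ℕ+) : ℕ)) j'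
    · simp only [g, dif_neg hex]
      exact isWeightedHomogeneous_zero _ _ _
  · have e1 := hG0 (fun j => eval y (g j)) fun i => by
      have := hy i
      simpa only [eval_aeval] using this
    funext j
    have := congrFun e1 (f j)
    simpa only [hg, eval_X, Pi.zero_apply] using this

/-- more equations -/
lemma Aniso.extend {w : J → ℕ+} {D : I → ℕ+} (f : I' → I) (hf : Function.Injective f)
    (h : Aniso K w (fun i => D (f i))) : Aniso K w D := by
  classical
  obtain ⟨G, hG, hG0⟩ := h
  let g : I → MvPolynomial J K := fun i => if h : ∃ i', f i' = i then G h.choose else 0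
  have hg : ∀ i', g (f i') = G i' := by
    intro i'
    have hex : ∃ i'', f i'' = f i' := ⟨i', rfl⟩
    simp only [g, dif_pos hex]
    rw [hf hex.choose_spec]
  refine ⟨g, fun i => ?_, fun y hy => hG0 y fun i => ?_⟩
  · by_cases hex : ∃ i', f i' = i
    · obtain ⟨i', rfl⟩ := hex
      rw [hg]
      exact hG i'
    · simp only [g, dif_neg hex]
      exact isWeightedHomogeneous_zero _ _ _
  · rw [← hg]
    exact hy _

/-- the product of two forms -/
lemma Aniso.prodForms {w : J → ℕ+} {a b : ℕ+} (h1 : Aniso K w (fun _ : Unit => a))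
    (h2 : Aniso K w (fun _ : Unit => b)) : Aniso K w (fun _ : Unit => a + b) := by
  obtain ⟨G, hG, hG0⟩ := h1
  obtain ⟨H, hH, hH0⟩ := h2
  refine ⟨fun _ => G () * H (), fun _ => ?_, fun y hy => ?_⟩
  · have := (hG ()).mul (hH ())
    simpa only [PNat.add_coe] using this
  · have := hy ()
    simp only [map_mul, mul_eq_zero] at this
    rcases this with h | h
    · exact hG0 y fun _ => h
    · exact hH0 y fun _ => h

/-- the power of a variable -/
lemma Aniso.power (a : ℕ+) : Aniso K (fun _ : Unit => (1 : ℕ+)) (fun _ : Unit => a) := by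
  refine ⟨fun _ => X () ^ (a : ℕ), fun _ => ?_, fun y hy => ?_⟩
  · have := (isWeightedHomogeneous_X K (fun _ : Unit => ((1 : ℕ+) : ℕ)) ()).pow (a : ℕ)
    simpa using this
  · have := hy ()
    simp only [map_pow, eval_X] at this
    funext u
    exact pow_eq_zero_iff (a.ne_zero) |>.1 this

/-- the subsystem of weights divisible by `g` -/
lemma Aniso.sub {w : J → ℕ+} {D : I → ℕ+} (h : Aniso K w D) (g : ℕ) :
    Aniso K (fun j : {j // g ∣ (w j : ℕ)} => w j.1) (fun i : {i // g ∣ (D i : ℕ)} => D i.1) := by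
  classical
  obtain ⟨G, hG, hG0⟩ := h
  let r : J → MvPolynomial {j // g ∣ (w j : ℕ)} K :=
    fun j => if h : g ∣ (w j : ℕ) then X ⟨j, h⟩ else 0
  have hr : ∀ j, IsWeightedHomogeneous (fun j : {j // g ∣ (w j : ℕ)} => (w j.1 : ℕ)) (r j)
      (w j : ℕ) := by
    intro j
    by_cases h : g ∣ (w j : ℕ)
    · simp only [r, dif_pos h]
      exact isWeightedHomogeneous_X K (fun j : {j // g ∣ (w j : ℕ)} => (w j.1 : ℕ)) ⟨j, h⟩
    · simp only [r, dif_neg h]
      exact isWeightedHomogeneous_zero _ _ _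
  have hwh : ∀ i, IsWeightedHomogeneous (fun j : {j // g ∣ (w j : ℕ)} => (w j.1 : ℕ))
      (aeval r (G i)) (D i : ℕ) := fun i => comp_wh hr (hG i)
  have hzero : ∀ i, ¬ g ∣ (D i : ℕ) → aeval r (G i) = 0 := by
    intro i hi
    by_contra hne
    obtain ⟨d, hd⟩ := MvPolynomial.ne_zero_iff.1 hne
    have h1 := hwh i hd
    apply hi
    rw [← h1, Finsupp.weight_apply]
    apply Finset.dvd_sum
    intro j _
    exact Dvd.dvd.mul_left j.2 _
  refine ⟨fun i => aeval r (G i.1), fun i => hwh i.1, fun y hy => ?_⟩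
  have e1 := hG0 (fun j => eval y (r j)) fun i => by
    rw [← eval_aeval]
    by_cases hi : g ∣ (D i : ℕ)
    · exact hy ⟨i, hi⟩
    · rw [hzero i hi, map_zero]
  funext j
  have := congrFun e1 j.1
  simpa only [r, dif_pos j.2, eval_X, Pi.zero_apply, Subtype.coe_eta] using this

lemma Aniso.le_of_C1 (hK : IsC1 K) {n : ℕ} {D : ℕ+}
    (h : Aniso K (fun _ : Fin n => (1 : ℕ+)) (fun _ : Unit => D)) : n ≤ D := by
  obtain ⟨G, hG, hG0⟩ := h
  by_contra hcon
  push Not at hcon
  have h1 : (G ()).IsHomogeneous D := hG ()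
  obtain ⟨x, hx, hx0⟩ := hK n D (G ()) h1 D.pos hcon
  exact hx (hG0 x fun _ => hx0)

end rules

end Pool.Agent.Helper45.SC1
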