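import Pool.Agent.Helper45.SC1.Step

set_option autoImplicit false

open Finset

namespace Pool.Agent.Helper45.SC1

variable {K : Type*} [Field K]

/-- the exponents -/
def BS (K : Type*) [Field K] (p : ℕ+) : Set ℝ :=
  {x : ℝ | ∃ D : ℕ+, 2 ≤ (D : ℕ) ∧ ¬ (p : ℕ) ∣ D ∧ x = Real.log (rho K D) / Real.log D}

/-- the exponent -/
noncomputable def beta (K : Type*) [Field K] (p : ℕ+) : ℝ := sSup (BS K p)

lemma BS_le (hK : IsC1 K) {p : ℕ+} {x : ℝ} (hx : x ∈ BS K p) : x ≤ 1 := by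
  obtain ⟨D, h2, _, rfl⟩ := hx
  have h3 : (1 : ℝ) < D := by
    have : 1 < (D : ℕ) := by omega
    exact_mod_cast this
  have h4 : 0 < Real.log D := Real.log_pos h3
  rw [div_le_one h4]
  exact Real.log_le_log (rho_pos hK D) (rho_le hK D)

lemma BS_nonneg (hK : IsC1 K) {p : ℕ+} {x : ℝ} (hx : x ∈ BS K p) : 0 ≤ x := by
  obtain ⟨D, h2, _, rfl⟩ := hx
  have h3 : (1 : ℝ) < D := by
    have : 1 < (D : ℕ) := by omega
    exact_mod_cast this
  exact div_nonneg (Real.log_nonneg (one_le_rho hK D)) (Real.log_nonneg h3.le)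

lemma BS_nonempty {p : ℕ+} (hp : (p : ℕ).Prime) : (BS K p).Nonempty := by
  refine ⟨_, p + 1, ?_, ?_, rfl⟩
  · rw [PNat.add_coe]
    have := hp.two_le
    have h1 : ((1 : ℕ+) : ℕ) = 1 := rfl
    omega
  · rw [PNat.add_coe]
    intro h
    have h1 : ((1 : ℕ+) : ℕ) = 1 := rfl
    rw [h1] at h
    have := (Nat.dvd_add_right (dvd_refl (p : ℕ))).1 h
    exact hp.one_lt.ne' (Nat.dvd_one.1 this)

lemma beta_le_one (hK : IsC1 K) {p : ℕ+} (hp : (p : ℕ).Prime) : beta K p ≤ 1 :=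
  csSup_le (BS_nonempty hp) fun _ hx => BS_le hK hx

lemma beta_nonneg (hK : IsC1 K) {p : ℕ+} (hp : (p : ℕ).Prime) : 0 ≤ beta K p := by
  obtain ⟨x, hx⟩ := BS_nonempty (K := K) hp
  exact (BS_nonneg hK hx).trans (le_csSup ⟨1, fun _ hx => BS_le hK hx⟩ hx)

lemma rho_le_rpow (hK : IsC1 K) {p : ℕ+} {D : ℕ+} (hD : ¬ (p : ℕ) ∣ D) :
    rho K D ≤ (D : ℝ) ^ beta K p := by
  by_cases h1 : (D : ℕ) = 1
  · have : D = 1 := PNat.coe_eq_one_iff.1 h1
    subst this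
    have := rho_le hK (1 : ℕ+)
    simpa using this
  · have h2 : 2 ≤ (D : ℕ) := by have := D.pos; omega
    have h3 : (1 : ℝ) < D := by
      have : 1 < (D : ℕ) := by omega
      exact_mod_cast this
    have h4 : 0 < Real.log D := Real.log_pos h3
    have h5 : Real.log (rho K D) / Real.log D ≤ beta K p :=
      le_csSup ⟨1, fun _ hx => BS_le hK hx⟩ ⟨D, h2, hD, rfl⟩
    rw [div_le_iff₀ h4] at h5
    rw [Real.rpow_def_of_pos (by linarith), ← Real.log_le_iff_le_exp (rho_pos hK D)]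
    linarith

lemma rho_ppow {p : ℕ+} (hp1 : ∀ D, rho K (p * D) = p * rho K D) (s : ℕ) (D : ℕ+) :
    rho K (p ^ s * D) = (p : ℝ) ^ s * rho K D := by
  induction s with
  | zero => simp
  | succ s ih =>
    rw [pow_succ', mul_assoc, hp1, ih, pow_succ']
    ring

/-- the coin argument -/
lemma rho_ge (hK : IsC1 K) {p : ℕ+} (hp : (p : ℕ).Prime)
    (hp1 : ∀ D, rho K (p * D) = p * rho K D) (s : ℕ) (M : ℕ+) (hM : ¬ (p : ℕ) ∣ M)
    (hq : (p : ℝ) ^ s ≤ rho K M) (hqM : (p : ℕ) ^ s < M) (k : ℕ) :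
    ∀ D : ℕ+, k * (p : ℕ) ^ s * (M : ℕ) ^ k ≤ D → ((p : ℝ) ^ s) ^ k ≤ rho K D := by
  induction k with
  | zero => intro D _; rw [pow_zero]; exact one_le_rho hK D
  | succ k ih =>
    intro D hD
    set q : ℕ := (p : ℕ) ^ s with hqdef
    have hq0 : 0 < q := pow_pos p.pos s
    have hcop : Nat.Coprime ((M : ℕ) ^ (k + 1)) q := by
      apply Nat.Coprime.pow
      exact ((Nat.Prime.coprime_iff_not_dvd hp).2 hM).symm
    -- choose `c`
    obtain ⟨c, hc1, hc2⟩ : ∃ c < q, c * (M : ℕ) ^ (k + 1) ≡ D [MOD q] := by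
      by_cases hq1 : q = 1
      · exact ⟨0, hq0, by rw [hq1]; exact Nat.modEq_one⟩
      have hunit : IsUnit (((M : ℕ) ^ (k + 1) : ℕ) : ZMod q) := by
        rw [ZMod.isUnit_iff_coprime]; exact hcop
      obtain ⟨u, hu⟩ := hunit
      have : NeZero q := ⟨hq0.ne'⟩
      refine ⟨(((D : ℕ) : ZMod q) * (↑u⁻¹ : ZMod q)).val, ZMod.val_lt _, ?_⟩
      rw [← ZMod.natCast_eq_natCast_iff]
      rw [Nat.cast_mul, ZMod.natCast_val, ZMod.cast_id', id, ← hu, mul_assoc, Units.inv_mul, mul_one]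
    have hMk : 0 < (M : ℕ) ^ (k + 1) := pow_pos M.pos _
    have hle : c * (M : ℕ) ^ (k + 1) < D := by
      calc c * (M : ℕ) ^ (k + 1) < q * (M : ℕ) ^ (k + 1) := Nat.mul_lt_mul_of_pos_right hc1 hMk
        _ ≤ (k + 1) * q * (M : ℕ) ^ (k + 1) := by
            apply Nat.mul_le_mul_right
            nlinarith
        _ ≤ D := hD
    obtain ⟨D₁, hD₁⟩ : q ∣ D - c * (M : ℕ) ^ (k + 1) := (Nat.modEq_iff_dvd' hle.le).1 hc2
    have hD₁' : (D : ℕ) = c * (M : ℕ) ^ (k + 1) + q * D₁ := by omega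
    have hD₁0 : 0 < D₁ := by
      rcases Nat.eq_zero_or_pos D₁ with h | h
      · rw [h] at hD₁'; omega
      · exact h
    have hbig : k * q * (M : ℕ) ^ k ≤ D₁ := by
      have h1 : (k + 1) * q * (M : ℕ) ^ (k + 1) ≤ c * (M : ℕ) ^ (k + 1) + q * D₁ := by
        rw [← hD₁']; exact hD
      have h2 : c * (M : ℕ) ^ (k + 1) ≤ q * (M : ℕ) ^ (k + 1) := Nat.mul_le_mul_right _ hc1.le
      have h3 : q * (k * (M : ℕ) ^ (k + 1)) ≤ q * D₁ := by nlinarith
      have h4 : k * (M : ℕ) ^ (k + 1) ≤ D₁ := Nat.le_of_mul_le_mul_left h3 hq0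
      calc k * q * (M : ℕ) ^ k = k * (M ^ k * q) := by ring
        _ ≤ k * ((M : ℕ) ^ k * M) := by gcongr
        _ = k * (M : ℕ) ^ (k + 1) := by rw [pow_succ]
        _ ≤ D₁ := h4
    have hp0 : (0 : ℝ) < p := by exact_mod_cast p.pos
    have hqR : (0 : ℝ) < (p : ℝ) ^ s := pow_pos hp0 s
    -- the second part
    obtain ⟨E, hE⟩ : ∃ E : ℕ+, (E : ℕ) = D₁ := ⟨⟨D₁, hD₁0⟩, rfl⟩
    have e2 : ((p : ℝ) ^ s) ^ (k + 1) ≤ rho K (p ^ s * E) := by
      rw [rho_ppow hp1, pow_succ']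
      exact mul_le_mul_of_nonneg_left (ih E (by rw [hE]; exact hbig)) hqR.le
    rcases Nat.eq_zero_or_pos c with hc0 | hc0
    · have : D = p ^ s * E := by
        apply PNat.coe_injective
        rw [PNat.mul_coe, PNat.pow_coe, hD₁', hc0, hE]
        simp [hqdef]
      rw [this]
      exact e2
    · obtain ⟨C, hC⟩ : ∃ C : ℕ+, (C : ℕ) = c := ⟨⟨c, hc0⟩, rfl⟩
      have : D = C * M ^ (k + 1) + p ^ s * E := by
        apply PNat.coe_injective
        rw [PNat.add_coe, PNat.mul_coe, PNat.mul_coe, PNat.pow_coe, PNat.pow_coe, hD₁', hC, hE]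
      rw [this]
      refine le_trans (le_min ?_ e2) (rho_add hK _ _)
      refine le_trans ?_ (rho_mul hK _ _)
      have f1 := one_le_rho hK C
      have f2 : ((p : ℝ) ^ s) ^ (k + 1) ≤ rho K (M ^ (k + 1)) :=
        (pow_le_pow_left₀ hqR.le hq _).trans (rho_pow hK M (k + 1))
      have f3 : (0 : ℝ) < rho K (M ^ (k + 1)) := rho_pos hK _
      nlinarith

end Pool.Agent.Helper45.SC1
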