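import Pool.Agent.Helper45.SC1.Norm

set_option autoImplicit false

open MvPolynomial

namespace Pool.Agent.Helper45.SC1

variable {K : Type*} [Field K]

lemma eval_zero_of_wh {J : Type} {w : J → ℕ} {G : MvPolynomial J K} {e : ℕ}
    (hG : IsWeightedHomogeneous w G e) (he : e ≠ 0) : eval (0 : J → K) G = 0 := by
  have h1 : eval (0 : J → K) G = constantCoeff G :=
    congrFun (congrArg DFunLike.coe (eval_zero (σ := J) (R := K))) G
  rw [h1, constantCoeff_eq]
  by_contra hne
  have := hG hne
  simp at this
  exact he this.symm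

/-- over an algebraically closed field an anisotropic system has at most as many variables as
equations -/
theorem card_le_of_closed [IsAlgClosed K] {J I : Type} [Fintype J] [Fintype I] (w : J → ℕ+)
    (D : I → ℕ+) (h : Aniso K w D) : Fintype.card J ≤ Fintype.card I := by
  classical
  obtain ⟨G, hG, hG0⟩ := h
  have hdim : ringKrullDim (MvPolynomial J K) = (Fintype.card J : WithBot ℕ∞) := by
    rw [MvPolynomial.ringKrullDim_of_isNoetherianRing, ringKrullDim_eq_zero_of_field, zero_add,
      Nat.card_eq_fintype_card]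
  have hfin : FiniteRingKrullDim (MvPolynomial J K) := by
    rw [finiteRingKrullDim_iff_ne_bot_and_top, hdim]
    exact ⟨WithBot.coe_ne_bot, fun h => by
      have h2 : ((Fintype.card J : ℕ∞) : WithBot ℕ∞) = ((⊤ : ℕ∞) : WithBot ℕ∞) := h
      exact ENat.natCast_ne_top _ (WithBot.coe_injective h2)⟩
  obtain ⟨M, hM, hMh⟩ := Ideal.exists_isMaximal_height (R := MvPolynomial J K)
  obtain ⟨a, rfl⟩ := isMaximal_iff_eq_vanishingIdeal_singleton.1 hM
  let G' : I → MvPolynomial J K := fun i => aeval (fun j => X j - C (a j)) (G i)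
  have hG' : ∀ i y, eval y (G' i) = eval (fun j => y j - a j) (G i) := by
    intro i y
    rw [eval_aeval]
    simp
  have hzl : zeroLocus K (Ideal.span (Set.range G')) = {a} := by
    rw [zeroLocus_span]
    ext y
    simp only [Set.mem_range, forall_exists_index, forall_apply_eq_imp_iff, Set.mem_ofPred_eq,
      Set.mem_singleton_iff]
    constructor
    · intro hy
      have h1 := hG0 (fun j => y j - a j) fun i => by
        rw [← hG']
        exact hy i
      funext j
      have := congrFun h1 j
      simpa [sub_eq_zero] using this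
    · rintro rfl i
      show eval y (G' i) = 0
      rw [hG']
      have : (fun j => y j - y j) = (0 : J → K) := by funext j; simp
      rw [this]
      exact eval_zero_of_wh (hG i) (D i).ne_zero
  have hrad : (Ideal.span (Set.range G')).radical = vanishingIdeal K {a} := by
    rw [← vanishingIdeal_zeroLocus_eq_radical (K := K), hzl]
  have hmin : vanishingIdeal K {a} ∈ (Ideal.span (Set.range G')).minimalPrimes := by
    refine ⟨⟨inferInstance, ?_⟩, ?_⟩
    · rw [← hrad]; exact Ideal.le_radical
    · rintro q ⟨hq, hIq⟩ _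
      rw [← hrad]
      exact (Ideal.IsPrime.radical_le_iff hq).2 hIq
  have hle := Ideal.height_le_card_of_mem_minimalPrimes_span (Set.finite_range G') hmin
  have hcard : (Set.range G').ncard ≤ Fintype.card I := by
    rw [← Nat.card_coe_set_eq, ← Nat.card_eq_fintype_card]
    exact Finite.card_range_le G'
  rw [hdim] at hMh
  have h1 : ((vanishingIdeal K {a}).height : WithBot ℕ∞) = ((Fintype.card J : ℕ∞) : WithBot ℕ∞) :=
    hMh
  have h2 : (vanishingIdeal K {a}).height = (Fintype.card J : ℕ∞) := WithBot.coe_injective h1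
  rw [h2] at hle
  have h3 : Fintype.card J ≤ (Set.range G').ncard := by exact_mod_cast hle
  exact h3.trans hcard

/-- **weights do not exceed degrees** -/
theorem main_aniso (hC : IsC1 K) {J I : Type} [Fintype J] [Fintype I] (w : J → ℕ+) (D : I → ℕ+)
    (h : Aniso K w D) : ∑ j, (w j : ℕ) ≤ ∑ i, (D i : ℕ) := by
  by_cases hK : IsAlgClosed K
  · exact weights_le_of_card (fun w D h => card_le_of_closed w D h) w D h
  · exact weights_le_of_not_closed hC hK w D h

/-- **`C1` fields are strongly `C1` for weighted systems.** -/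
theorem strongC1 (hC : IsC1 K) {J I : Type*} [Fintype J] [Fintype I] (w : J → ℕ)
    (hw : ∀ j, 1 ≤ w j) (D : I → ℕ) (hD : ∀ i, 1 ≤ D i) (G : I → MvPolynomial J K)
    (hG : ∀ i, IsWeightedHomogeneous w (G i) (D i)) (h : ∑ i, D i < ∑ j, w j) :
    ∃ y : J → K, y ≠ 0 ∧ ∀ i, eval y (G i) = 0 := by
  classical
  by_contra hcon
  push Not at hcon
  have hA : Aniso K (fun j => (⟨w j, hw j⟩ : ℕ+)) (fun i => (⟨D i, hD i⟩ : ℕ+)) := by
    refine ⟨G, hG, fun y hy => ?_⟩
    by_contra hne
    obtain ⟨i, hi⟩ := hcon y hne
    exact hi (hy i)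
  have e1 := main_aniso hC _ _ ((hA.reindexJ (Fintype.equivFin J).symm).reindexI
    (Fintype.equivFin I).symm)
  have e2 : ∑ j, w ((Fintype.equivFin J).symm j) = ∑ j, w j :=
    Equiv.sum_comp (Fintype.equivFin J).symm w
  have e3 : ∑ i, D ((Fintype.equivFin I).symm i) = ∑ i, D i :=
    Equiv.sum_comp (Fintype.equivFin I).symm D
  simp only [PNat.mk_coe] at e1
  omega

end Pool.Agent.Helper45.SC1
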