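import Pool.Agent.Helper45.SC1.Beta

set_option autoImplicit false

open Finset

namespace Pool.Agent.Helper45.SC1

variable {K : Type*} [Field K]

/-- lower bound for `rho`, up to a small power -/
lemma growth (hK : IsC1 K) {p : ℕ+} (hp : (p : ℕ).Prime)
    (hp1 : ∀ D, rho K (p * D) = p * rho K D) (ε : ℝ) (hε : 0 < ε) :
    ∃ C : ℝ, 0 < C ∧ ∀ D : ℕ+, (D : ℝ) ^ (beta K p - ε) ≤ C * rho K D := by
  set b := beta K p with hb
  rcases le_or_gt b ε with hbe | hbe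
  · refine ⟨1, one_pos, fun D => ?_⟩
    have h1 : (1 : ℝ) ≤ D := by exact_mod_cast D.pos
    have h2 : (D : ℝ) ^ (b - ε) ≤ 1 := Real.rpow_le_one_of_one_le_of_nonpos h1 (by linarith)
    linarith [one_le_rho hK D]
  have hp0 : (0 : ℝ) < p := by exact_mod_cast p.pos
  have hp2 : (2 : ℝ) ≤ p := by exact_mod_cast hp.two_le
  -- a good degree
  obtain ⟨x, ⟨D₀, hD2, hDp, rfl⟩, hx⟩ := exists_lt_of_lt_csSup (BS_nonempty (K := K) hp)
    (show b - ε / 3 < sSup (BS K p) by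
      change b - ε / 3 < beta K p
      rw [← hb]; linarith)
  have hD1 : (1 : ℝ) < D₀ := by
    have : 1 < (D₀ : ℕ) := by omega
    exact_mod_cast this
  have hlog : 0 < Real.log D₀ := Real.log_pos hD1
  have hrho0 : (D₀ : ℝ) ^ (b - ε / 3) ≤ rho K D₀ := by
    rw [lt_div_iff₀ hlog] at hx
    rw [Real.rpow_def_of_pos (by linarith), ← Real.le_log_iff_exp_le (rho_pos hK _)]
    linarith
  -- a large power of it
  obtain ⟨r, hr⟩ := exists_nat_gt (Real.log p / ((ε / 3) * Real.log D₀))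
  have hr' : Real.log p < r * ((ε / 3) * Real.log D₀) := by
    rwa [div_lt_iff₀ (by positivity)] at hr
  have hr0 : r ≠ 0 := by
    rintro rfl
    have : 0 < Real.log p := Real.log_pos (by linarith)
    simp at hr'
    linarith
  set M : ℕ+ := D₀ ^ r with hM
  set m : ℝ := (M : ℝ) with hm
  have hmD : m = (D₀ : ℝ) ^ r := by rw [hm, hM, PNat.pow_coe]; push_cast; rfl
  have hm1 : 1 < m := by rw [hmD]; exact one_lt_pow₀ hD1 hr0
  have hm0 : 0 < m := by linarith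
  have hMp : ¬ (p : ℕ) ∣ M := by
    rw [hM, PNat.pow_coe]
    intro h
    exact hDp (hp.dvd_of_dvd_pow h)
  have hpm : (p : ℝ) ≤ m ^ (ε / 3) := by
    rw [Real.rpow_def_of_pos hm0, ← Real.log_le_iff_le_exp hp0, hmD, Real.log_pow]
    nlinarith
  have hrhoM : m ^ (b - ε / 3) ≤ rho K M := by
    have h1 : ((D₀ : ℝ) ^ (b - ε / 3)) ^ r ≤ rho K D₀ ^ r :=
      pow_le_pow_left₀ (Real.rpow_nonneg (by linarith) _) hrho0 r
    have h2 : ((D₀ : ℝ) ^ (b - ε / 3)) ^ r = m ^ (b - ε / 3) := by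
      rw [hmD, ← Real.rpow_natCast, ← Real.rpow_mul (by linarith), ← Real.rpow_natCast (D₀ : ℝ) r,
        ← Real.rpow_mul (by linarith), mul_comm]
    rw [← h2]
    exact h1.trans (rho_pow hK D₀ r)
  -- the power of `p`
  obtain ⟨s, hs1, hs2⟩ := exists_nat_pow_near (one_le_rho hK M) (show (1 : ℝ) < p by linarith)
  have hqM : (p : ℕ) ^ s < M := by
    have h1 : ((p : ℕ) ^ s : ℕ) ≤ (M : ℕ) := by
      have : (p : ℝ) ^ s ≤ (M : ℝ) := hs1.trans (rho_le hK M)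
      exact_mod_cast this
    rcases h1.lt_or_eq with h | h
    · exact h
    · exfalso
      rcases Nat.eq_zero_or_pos s with h0 | h0
      · rw [h0, pow_zero] at h
        have : (M : ℝ) = 1 := by rw [← h]; simp
        rw [← hm] at this
        linarith
      · exact hMp (h ▸ dvd_pow_self _ h0.ne')
  set q : ℝ := (p : ℝ) ^ s with hq
  have hq0 : 0 < q := pow_pos hp0 s
  have hqm : m ^ (b - 2 * (ε / 3)) ≤ q := by
    have h1 : m ^ (b - ε / 3) < p * q := by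
      rw [pow_succ'] at hs2
      exact hrhoM.trans_lt hs2
    have h2 : m ^ (b - ε / 3) = m ^ (b - 2 * (ε / 3)) * m ^ (ε / 3) := by
      rw [← Real.rpow_add hm0]; congr 1; ring
    rw [h2] at h1
    have h3 : 0 < m ^ (b - 2 * (ε / 3)) := Real.rpow_pos_of_pos hm0 _
    have h4 : m ^ (b - 2 * (ε / 3)) * p ≤ m ^ (b - 2 * (ε / 3)) * m ^ (ε / 3) :=
      mul_le_mul_of_nonneg_left hpm h3.le
    nlinarith
  refine ⟨m ^ 2, by positivity, fun D => ?_⟩
  -- the exponent `k`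
  have hex : ∃ k : ℕ, (D : ℕ) < k * (p : ℕ) ^ s * (M : ℕ) ^ k := by
    refine ⟨D + 1, ?_⟩
    have h1 : 0 < (p : ℕ) ^ s := pow_pos p.pos s
    have h2 : 0 < (M : ℕ) ^ ((D : ℕ) + 1) := pow_pos M.pos _
    calc (D : ℕ) < (D + 1) * 1 * 1 := by omega
      _ ≤ (D + 1) * (p : ℕ) ^ s * (M : ℕ) ^ ((D : ℕ) + 1) := by gcongr <;> omega
  obtain ⟨k, hk1, hk2⟩ : ∃ k : ℕ, k * (p : ℕ) ^ s * (M : ℕ) ^ k ≤ D ∧
      (D : ℕ) < (k + 1) * (p : ℕ) ^ s * (M : ℕ) ^ (k + 1) := by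
    classical
    have h1 := Nat.find_spec hex
    have h0 : Nat.find hex ≠ 0 := by
      intro h
      rw [h] at h1
      simp at h1
    obtain ⟨k, hk⟩ := Nat.exists_eq_succ_of_ne_zero h0
    refine ⟨k, ?_, by rw [hk] at h1; exact h1⟩
    have := Nat.find_min hex (show k < Nat.find hex by omega)
    exact not_lt.1 this
  have hrk := rho_ge hK hp hp1 s M hMp hs1 hqM k D hk1
  have hDm : (D : ℝ) ≤ (k + 1) * m ^ (k + 2) := by
    have h1 : ((D : ℕ) : ℝ) < ((k + 1) * (p : ℕ) ^ s * (M : ℕ) ^ (k + 1) : ℕ) := by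
      exact_mod_cast hk2
    push_cast at h1
    have h2 : ((p : ℕ) : ℝ) ^ s ≤ m := hs1.trans (rho_le hK M)
    have h3 : (0 : ℝ) ≤ k := Nat.cast_nonneg k
    calc (D : ℝ) ≤ (k + 1) * ((p : ℕ) : ℝ) ^ s * m ^ (k + 1) := h1.le
      _ ≤ (k + 1) * m * m ^ (k + 1) := by gcongr
      _ = (k + 1) * m ^ (k + 2) := by ring
  have hb1 := beta_le_one hK hp
  rw [← hb] at hb1
  have hk0 : (0 : ℝ) ≤ k := Nat.cast_nonneg k
  have hD0 : (0 : ℝ) ≤ D := Nat.cast_nonneg _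
  calc (D : ℝ) ^ (b - ε) ≤ ((k + 1) * m ^ (k + 2)) ^ (b - ε) :=
        Real.rpow_le_rpow hD0 hDm (by linarith)
    _ = ((k : ℝ) + 1) ^ (b - ε) * (m ^ (k + 2)) ^ (b - ε) :=
        Real.mul_rpow (by linarith) (by positivity)
    _ ≤ ((k : ℝ) + 1) * (m ^ 2 * (m ^ (b - ε)) ^ k) := by
        have g1 : ((k : ℝ) + 1) ^ (b - ε) ≤ (k : ℝ) + 1 := by
          have := Real.rpow_le_rpow_of_exponent_le (show (1 : ℝ) ≤ k + 1 by linarith)
            (show b - ε ≤ 1 by linarith)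
          rwa [Real.rpow_one] at this
        have g2 : (m ^ (k + 2)) ^ (b - ε) ≤ m ^ 2 * (m ^ (b - ε)) ^ k := by
          have g3 : (m ^ (k + 2)) ^ (b - ε) = (m ^ (b - ε)) ^ (k + 2) := by
            rw [← Real.rpow_natCast, ← Real.rpow_mul hm0.le, ← Real.rpow_natCast (m ^ (b - ε)),
              ← Real.rpow_mul hm0.le, mul_comm]
          rw [g3, pow_add, mul_comm]
          apply mul_le_mul_of_nonneg_right _ (by positivity)
          apply pow_le_pow_left₀ (by positivity)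
          have := Real.rpow_le_rpow_of_exponent_le hm1.le (show b - ε ≤ 1 by linarith)
          rwa [Real.rpow_one] at this
        exact mul_le_mul g1 g2 (by positivity) (by linarith)
    _ ≤ (m ^ (ε / 3)) ^ k * (m ^ 2 * (m ^ (b - ε)) ^ k) := by
        apply mul_le_mul_of_nonneg_right _ (by positivity)
        have g1 : k + 1 ≤ 2 ^ k := Nat.lt_two_pow_self
        have g2 : ((k : ℝ) + 1) ≤ 2 ^ k := by exact_mod_cast g1
        refine g2.trans (pow_le_pow_left₀ (by norm_num) (hp2.trans hpm) k)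
    _ = m ^ 2 * (m ^ (b - 2 * (ε / 3))) ^ k := by
        have : m ^ (b - 2 * (ε / 3)) = m ^ (ε / 3) * m ^ (b - ε) := by
          rw [← Real.rpow_add hm0]; congr 1; ring
        rw [this, mul_pow]
        ring
    _ ≤ m ^ 2 * q ^ k := by
        apply mul_le_mul_of_nonneg_left _ (by positivity)
        exact pow_le_pow_left₀ (by positivity) hqm k
    _ ≤ m ^ 2 * rho K D := mul_le_mul_of_nonneg_left hrk (by positivity)

/-- the multiplicative norm -/
noncomputable def Nm (K : Type*) [Field K] (p : ℕ+) : ℕ+ →* ℝ where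
  toFun D := (p : ℝ) ^ ((D : ℕ).factorization p) *
    ((D : ℝ) / (p : ℝ) ^ ((D : ℕ).factorization p)) ^ beta K p
  map_one' := by simp
  map_mul' a b := by
    have hp0 : (0 : ℝ) < p := by exact_mod_cast p.pos
    rw [PNat.mul_coe, Nat.factorization_mul a.ne_zero b.ne_zero, Finsupp.add_apply, pow_add]
    push_cast
    rw [mul_div_mul_comm, Real.mul_rpow (by positivity) (by positivity)]
    ring

lemma Nm_apply (p D : ℕ+) : Nm K p D = (p : ℝ) ^ ((D : ℕ).factorization p) *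
    ((D : ℝ) / (p : ℝ) ^ ((D : ℕ).factorization p)) ^ beta K p := rfl

lemma Nm_pos (p D : ℕ+) : 0 < Nm K p D := by
  have hp0 : (0 : ℝ) < p := by exact_mod_cast p.pos
  have hD0 : (0 : ℝ) < D := by exact_mod_cast D.pos
  rw [Nm_apply]
  positivity

lemma exists_split {p : ℕ+} (hp : (p : ℕ).Prime) (D : ℕ+) :
    ∃ (v : ℕ) (D' : ℕ+), ¬ (p : ℕ) ∣ D' ∧ D = p ^ v * D' ∧
      (D : ℕ).factorization p = v := by
  obtain ⟨v, n, hn, hD⟩ := Nat.exists_eq_pow_mul_and_not_dvd D.ne_zero (p : ℕ) hp.ne_one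
  have hn0 : 0 < n := by
    rcases Nat.eq_zero_or_pos n with h | h
    · rw [h] at hn; simp at hn
    · exact h
  refine ⟨v, ⟨n, hn0⟩, hn, ?_, ?_⟩
  · apply PNat.coe_injective
    rw [PNat.mul_coe, PNat.pow_coe, hD]
    rfl
  · rw [hD, Nat.factorization_mul (pow_pos p.pos v).ne' hn0.ne', Finsupp.add_apply,
      hp.factorization_pow, Finsupp.single_eq_same, Nat.factorization_eq_zero_of_not_dvd hn,
      add_zero]

lemma Nm_split {p : ℕ+} {D D' : ℕ+} {v : ℕ} (h : D = p ^ v * D')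
    (hv : (D : ℕ).factorization p = v) : Nm K p D = (p : ℝ) ^ v * (D' : ℝ) ^ beta K p := by
  have hp0 : (0 : ℝ) < p := by exact_mod_cast p.pos
  rw [Nm_apply, hv]
  congr 2
  have : (D : ℝ) = (p : ℝ) ^ v * D' := by
    rw [h, PNat.mul_coe, PNat.pow_coe]; push_cast; rfl
  rw [this]
  field_simp

lemma rho_le_Nm (hK : IsC1 K) {p : ℕ+} (hp : (p : ℕ).Prime)
    (hp1 : ∀ D, rho K (p * D) = p * rho K D) (D : ℕ+) : rho K D ≤ Nm K p D := by
  obtain ⟨v, D', hD', h, hv⟩ := exists_split hp D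
  rw [Nm_split h hv]
  conv_lhs => rw [h]
  rw [rho_ppow hp1]
  have hp0 : (0 : ℝ) < p := by exact_mod_cast p.pos
  exact mul_le_mul_of_nonneg_left (rho_le_rpow hK hD') (by positivity)

lemma Nm_le_rho (hK : IsC1 K) {p : ℕ+} (hp : (p : ℕ).Prime)
    (hp1 : ∀ D, rho K (p * D) = p * rho K D) (ε : ℝ) (hε : 0 < ε) :
    ∃ C : ℝ, 0 < C ∧ ∀ D : ℕ+, Nm K p D ≤ C * (D : ℝ) ^ ε * rho K D := by
  obtain ⟨C, hC, h⟩ := growth hK hp hp1 ε hε
  refine ⟨C, hC, fun D => ?_⟩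
  obtain ⟨v, D', hD', hD, hv⟩ := exists_split hp D
  rw [Nm_split hD hv]
  have hp0 : (0 : ℝ) < p := by exact_mod_cast p.pos
  have hD0 : (0 : ℝ) < D' := by exact_mod_cast D'.pos
  have e1 : (D' : ℝ) ^ beta K p ≤ C * (D' : ℝ) ^ ε * rho K D' := by
    have h1 := h D'
    have h2 : (D' : ℝ) ^ beta K p = (D' : ℝ) ^ (beta K p - ε) * (D' : ℝ) ^ ε := by
      rw [← Real.rpow_add hD0]; congr 1; ring
    rw [h2]
    calc (D' : ℝ) ^ (beta K p - ε) * (D' : ℝ) ^ ε ≤ (C * rho K D') * (D' : ℝ) ^ ε :=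
          mul_le_mul_of_nonneg_right h1 (by positivity)
      _ = _ := by ring
  have e2 : rho K D = (p : ℝ) ^ v * rho K D' := by
    conv_lhs => rw [hD]
    exact rho_ppow hp1 v D'
  have e3 : (D' : ℝ) ^ ε ≤ (D : ℝ) ^ ε := by
    apply Real.rpow_le_rpow hD0.le _ hε.le
    have : (D' : ℕ) ≤ D := by
      rw [hD, PNat.mul_coe]
      exact Nat.le_mul_of_pos_left _ (p ^ v).pos
    exact_mod_cast this
  have hr := rho_pos hK D'
  rw [e2]
  calc (p : ℝ) ^ v * (D' : ℝ) ^ beta K p ≤ (p : ℝ) ^ v * (C * (D' : ℝ) ^ ε * rho K D') :=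
        mul_le_mul_of_nonneg_left e1 (by positivity)
    _ ≤ (p : ℝ) ^ v * (C * (D : ℝ) ^ ε * rho K D') := by gcongr
    _ = _ := by ring

end Pool.Agent.Helper45.SC1
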