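import Pool.Agent.Helper45.SC1.Tensor

set_option autoImplicit false

open Finset

namespace Pool.Agent.Helper45.SC1

open ArithmeticFunction in
/-- the Jordan totient with a real exponent `s ≥ 0` -/
lemma exists_jordan (s : ℝ) (hs : 0 ≤ s) : ∃ a : ℕ → ℝ, (∀ g, 0 ≤ a g) ∧
    ∀ n : ℕ, n ≠ 0 → ∑ g ∈ n.divisors, a g = (n : ℝ) ^ s := by
  let f : ArithmeticFunction ℝ := ⟨fun n => if n = 0 then 0 else (n : ℝ) ^ s, by simp⟩
  have hf : ∀ n : ℕ, n ≠ 0 → f n = (n : ℝ) ^ s := fun n hn => by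
    show (if n = 0 then 0 else (n : ℝ) ^ s) = _
    rw [if_neg hn]
  have hfm : f.IsMultiplicative := by
    rw [IsMultiplicative.iff_ne_zero]
    refine ⟨by rw [hf 1 one_ne_zero]; simp, fun {m n} hm hn _ => ?_⟩
    rw [hf _ (mul_ne_zero hm hn), hf m hm, hf n hn, Nat.cast_mul,
      Real.mul_rpow (Nat.cast_nonneg _) (Nat.cast_nonneg _)]
  let a : ArithmeticFunction ℝ := (moebius : ArithmeticFunction ℝ) * f
  have ham : a.IsMultiplicative := isMultiplicative_moebius.intCast.mul hfm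
  have hza : (zeta : ArithmeticFunction ℝ) * a = f := by
    show (zeta : ArithmeticFunction ℝ) * ((moebius : ArithmeticFunction ℝ) * f) = f
    rw [← mul_assoc, coe_zeta_mul_coe_moebius, one_mul]
  have hsum : ∀ n : ℕ, n ≠ 0 → ∑ g ∈ n.divisors, a g = (n : ℝ) ^ s := by
    intro n hn
    rw [← hf n hn, ← hza, coe_zeta_mul_apply]
  refine ⟨a, fun g => ?_, hsum⟩
  rcases Nat.eq_zero_or_pos g with h0 | h0
  · rw [h0, ArithmeticFunction.map_zero]
  · rw [ham.multiplicative_factorization a h0.ne', Finsupp.prod]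
    refine prod_nonneg fun q hq => ?_
    have hqp : q.Prime := Nat.prime_of_mem_primeFactors (by simpa using hq)
    have hk : g.factorization q ≠ 0 := Finsupp.mem_support_iff.1 hq
    obtain ⟨k, hk⟩ := Nat.exists_eq_succ_of_ne_zero hk
    rw [hk]
    have e1 := hsum (q ^ (k + 1)) (pow_ne_zero _ hqp.ne_zero)
    have e2 := hsum (q ^ k) (pow_ne_zero _ hqp.ne_zero)
    rw [Nat.divisors_prime_pow hqp, sum_map] at e1 e2
    rw [sum_range_succ, e2] at e1
    have e3 : (((q ^ k : ℕ) : ℝ)) ^ s ≤ ((q ^ (k + 1) : ℕ) : ℝ) ^ s := by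
      apply Real.rpow_le_rpow (Nat.cast_nonneg _) _ hs
      exact_mod_cast Nat.pow_le_pow_right hqp.pos (Nat.le_succ k)
    simp only [Function.Embedding.coeFn_mk] at e1
    have : a (q ^ (k + 1)) = ((q ^ (k + 1) : ℕ) : ℝ) ^ s - ((q ^ k : ℕ) : ℝ) ^ s := by linarith
    rw [Nat.succ_eq_add_one, this]
    linarith

/-- exchange of the sums -/
lemma final_sum {J I : Type} [Fintype J] [Fintype I] (w : J → ℕ+) (D : I → ℕ+) (S : Finset ℕ)
    (a : ℕ → ℝ) (ha : ∀ g, 0 ≤ a g) (N : ℕ+ → ℝ)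
    (hw : ∀ j, (w j : ℝ) = N (w j) * ∑ g ∈ S, if g ∣ (w j : ℕ) then a g else 0)
    (hD : ∀ i, (D i : ℝ) = N (D i) * ∑ g ∈ S, if g ∣ (D i : ℕ) then a g else 0)
    (hineq : ∀ g ∈ S, ∑ j : {j // g ∣ (w j : ℕ)}, N (w j) ≤ ∑ i : {i // g ∣ (D i : ℕ)}, N (D i)) :
    ∑ j, (w j : ℕ) ≤ ∑ i, (D i : ℕ) := by
  classical
  have key : ∀ {A : Type} [Fintype A] (u : A → ℕ+)
      (_ : ∀ j, (u j : ℝ) = N (u j) * ∑ g ∈ S, if g ∣ (u j : ℕ) then a g else 0),
      ∑ j, (u j : ℝ) = ∑ g ∈ S, a g * ∑ j : {j // g ∣ (u j : ℕ)}, N (u j) := by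
    intro A _ u hu
    calc ∑ j, (u j : ℝ) = ∑ j, ∑ g ∈ S, (if g ∣ (u j : ℕ) then a g * N (u j) else 0) := by
          refine sum_congr rfl fun j _ => ?_
          rw [hu j, mul_sum]
          refine sum_congr rfl fun g _ => ?_
          split_ifs <;> ring
      _ = ∑ g ∈ S, ∑ j, (if g ∣ (u j : ℕ) then a g * N (u j) else 0) := sum_comm
      _ = _ := by
          refine sum_congr rfl fun g _ => ?_
          rw [mul_sum, ← sum_filter]
          rw [sum_subtype (univ.filter fun j => g ∣ (u j : ℕ)) (p := fun j => g ∣ (u j : ℕ))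
            (by simp)]
  have : ((∑ j, (w j : ℕ) : ℕ) : ℝ) ≤ ((∑ i, (D i : ℕ) : ℕ) : ℝ) := by
    push_cast
    rw [key w hw, key D hD]
    exact sum_le_sum fun g hg => mul_le_mul_of_nonneg_left (hineq g hg) (ha g)
  exact_mod_cast this

variable {K : Type*} [Field K]

/-- the weights do not exceed the degrees, given a good prime -/
theorem weights_le (hK : IsC1 K) (hT : ∃ e : ℕ+, 1 < e ∧ Nrm K e) {p : ℕ+} (hp : (p : ℕ).Prime)
    (hp1 : ∀ D, rho K (p * D) = p * rho K D) {J I : Type} [Fintype J] [Fintype I]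
    (w : J → ℕ+) (D : I → ℕ+) (h : Aniso K w D) : ∑ j, (w j : ℕ) ≤ ∑ i, (D i : ℕ) := by
  classical
  obtain ⟨a, ha, hsum⟩ := exists_jordan (1 - beta K p) (by linarith [beta_le_one hK hp])
  set B : ℕ := ∑ j, (w j : ℕ) + ∑ i, (D i : ℕ) with hB
  set S : Finset ℕ := (range (B + 1)).filter fun g => g ≠ 0 ∧ ¬ (p : ℕ) ∣ g with hS
  have hrep : ∀ u : ℕ+, (u : ℕ) ≤ B → (u : ℝ) = Nm K p u * ∑ g ∈ S,
      if g ∣ (u : ℕ) then a g else 0 := by
    intro u hu
    obtain ⟨v, u', hu', hs, hv⟩ := exists_split hp u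
    rw [Nm_split hs hv]
    have hu'0 : (0 : ℝ) < u' := by exact_mod_cast u'.pos
    have hucoe : (u : ℕ) = (p : ℕ) ^ v * u' := by rw [hs, PNat.mul_coe, PNat.pow_coe]
    have e1 : (S.filter fun g => g ∣ (u : ℕ)) = (u' : ℕ).divisors := by
      ext g
      simp only [hS, mem_filter, mem_range, Nat.mem_divisors]
      constructor
      · rintro ⟨⟨_, h1, h2⟩, h3⟩
        refine ⟨?_, u'.ne_zero⟩
        rw [hucoe] at h3
        have hc : Nat.Coprime g ((p : ℕ) ^ v) :=
          (Nat.Coprime.pow_left v ((Nat.Prime.coprime_iff_not_dvd hp).2 h2)).symm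
        exact hc.dvd_of_dvd_mul_left h3
      · rintro ⟨h1, _⟩
        have h2 : g ≤ u' := Nat.le_of_dvd u'.pos h1
        have h3 : (u' : ℕ) ≤ u := by
          rw [hucoe]
          exact Nat.le_mul_of_pos_left _ (pow_pos p.pos v)
        refine ⟨⟨by omega, ?_, fun hpg => hu' (hpg.trans h1)⟩, ?_⟩
        · rintro rfl
          exact u'.ne_zero (Nat.eq_zero_of_zero_dvd h1)
        · rw [hucoe]
          exact h1.mul_left _
    rw [← sum_filter, e1, hsum _ u'.ne_zero, mul_assoc, ← Real.rpow_add hu'0]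
    have e2 : beta K p + (1 - beta K p) = 1 := by ring
    rw [e2, Real.rpow_one, hucoe]
    push_cast
    rfl
  refine final_sum w D S a ha (fun u => Nm K p u) (fun j => hrep _ ?_) (fun i => hrep _ ?_) ?_
  · have := single_le_sum (f := fun j => (w j : ℕ)) (fun j _ => Nat.zero_le _) (mem_univ j)
    omega
  · have := single_le_sum (f := fun i => (D i : ℕ)) (fun j _ => Nat.zero_le _) (mem_univ i)
    omega
  · intro g _
    exact norm_ineq hK hT hp hp1 _ _ (h.sub g)

/-- the weights do not exceed the degrees, when the number of variables is at most the number of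
equations for all anisotropic systems -/
theorem weights_le_of_card (hc : ∀ {J I : Type} [Fintype J] [Fintype I] (w : J → ℕ+) (D : I → ℕ+),
    Aniso K w D → Fintype.card J ≤ Fintype.card I) {J I : Type} [Fintype J] [Fintype I]
    (w : J → ℕ+) (D : I → ℕ+) (h : Aniso K w D) : ∑ j, (w j : ℕ) ≤ ∑ i, (D i : ℕ) := by
  classical
  obtain ⟨a, ha, hsum⟩ := exists_jordan 1 one_pos.le
  set B : ℕ := ∑ j, (w j : ℕ) + ∑ i, (D i : ℕ) with hB
  set S : Finset ℕ := (range (B + 1)).filter fun g => g ≠ 0 with hS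
  have hrep : ∀ u : ℕ+, (u : ℕ) ≤ B → (u : ℝ) = 1 * ∑ g ∈ S,
      if g ∣ (u : ℕ) then a g else 0 := by
    intro u hu
    have e1 : (S.filter fun g => g ∣ (u : ℕ)) = (u : ℕ).divisors := by
      ext g
      simp only [hS, mem_filter, mem_range, Nat.mem_divisors]
      constructor
      · rintro ⟨⟨_, h1⟩, h3⟩
        exact ⟨h3, u.ne_zero⟩
      · rintro ⟨h1, _⟩
        have h2 : g ≤ u := Nat.le_of_dvd u.pos h1
        refine ⟨⟨by omega, ?_⟩, h1⟩
        rintro rfl
        exact u.ne_zero (Nat.eq_zero_of_zero_dvd h1)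
    rw [← sum_filter, e1, hsum _ u.ne_zero, Real.rpow_one, one_mul]
  refine final_sum w D S a ha (fun _ => 1) (fun j => hrep _ ?_) (fun i => hrep _ ?_) ?_
  · have := single_le_sum (f := fun j => (w j : ℕ)) (fun j _ => Nat.zero_le _) (mem_univ j)
    omega
  · have := single_le_sum (f := fun i => (D i : ℕ)) (fun j _ => Nat.zero_le _) (mem_univ i)
    omega
  · intro g _
    have := hc _ _ (h.sub g)
    simp only [sum_const, card_univ, nsmul_eq_mul, mul_one]
    exact_mod_cast this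

end Pool.Agent.Helper45.SC1
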