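import Pool.Agent.Helper45.SC1.Jordan

set_option autoImplicit false

open MvPolynomial

namespace Pool.Agent.Helper45.SC1

variable {K : Type*} [Field K]

lemma det_hom {n : ℕ} {σ : Type*} (M : Matrix (Fin n) (Fin n) (MvPolynomial σ K))
    (h : ∀ i j, (M i j).IsHomogeneous 1) : M.det.IsHomogeneous n := by
  rw [Matrix.det_apply]
  apply IsHomogeneous.sum
  intro σ _
  have h1 : (∏ i, M (σ i) i).IsHomogeneous (∑ _i : Fin n, 1) := by
    apply IsHomogeneous.prod
    intro i _
    exact h _ _
  simp only [Finset.sum_const, Finset.card_univ, Fintype.card_fin, smul_eq_mul, mul_one] at h1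
  rcases Int.units_eq_one_or (Equiv.Perm.sign σ) with h | h
  · rw [h, one_smul]; exact h1
  · rw [h, Units.neg_smul, one_smul]; exact h1.neg

/-- norm forms are anisotropic -/
lemma nrm_of_ext (L : Type*) [Field L] [Algebra K L] [FiniteDimensional K L] (t : ℕ+)
    (ht : Module.finrank K L = t) : Nrm K t := by
  classical
  let b : Module.Basis (Fin t) K L := Module.finBasisOfFinrankEq K L ht
  let M : Matrix (Fin t) (Fin t) (MvPolynomial (Fin t) K) :=
    Matrix.of fun i j => ∑ l, C (Algebra.leftMulMatrix b (b l) i j) * X l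
  have hM : ∀ i j, (M i j).IsHomogeneous 1 := by
    intro i j
    show (∑ l, C (Algebra.leftMulMatrix b (b l) i j) * X l).IsHomogeneous 1
    apply IsHomogeneous.sum
    intro l _
    have := (isHomogeneous_C (Fin t) (Algebra.leftMulMatrix b (b l) i j)).mul
      (isHomogeneous_X K l)
    simpa using this
  unfold Nrm
  rw [natCast_eq_cls, ← cls_unit, le_cls_iff]
  refine ⟨fun _ => M.det, fun _ => det_hom M hM, fun y hy => ?_⟩
  have h1 := hy ()
  have h2 : eval y M.det = Algebra.norm K (∑ l, y l • b l) := by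
    rw [RingHom.map_det, Algebra.norm_eq_matrix_det b]
    congr 1
    ext i j
    simp only [RingHom.mapMatrix_apply, Matrix.map_apply, M, Matrix.of_apply, map_sum, map_mul,
      eval_C, eval_X, map_smul, Matrix.sum_apply, Matrix.smul_apply, smul_eq_mul]
    exact Finset.sum_congr rfl fun l _ => mul_comm _ _
  rw [h2, Algebra.norm_eq_zero_iff] at h1
  funext l
  have h3 := (Fintype.linearIndependent_iff.1 b.linearIndependent) y h1 l
  exact h3

/-- a non algebraically closed field has a good prime -/
lemma exists_prime (hK : ¬ IsAlgClosed K) :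
    ∃ (p o : ℕ+), (p : ℕ).Prime ∧ Nrm K o ∧ Nrm K (p * o) := by
  by_cases hperf : PerfectField K
  · -- a Galois extension
    obtain ⟨f, hf, hroot⟩ : ∃ f : Polynomial K, Irreducible f ∧ ¬ ∃ x, f.eval x = 0 := by
      by_contra hcon
      push Not at hcon
      exact hK (IsAlgClosed.of_exists_root K fun f _ hf => by
        obtain ⟨x, hx⟩ := hcon f hf
        exact ⟨x, hx⟩)
    let E := f.SplittingField
    have hsep : f.Separable := PerfectField.separable_of_irreducible hf
    have hgal : IsGalois K E := IsGalois.of_separable_splitting_field hsep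
    have hcard : Nat.card (E ≃ₐ[K] E) = Module.finrank K E := IsGalois.card_aut_eq_finrank K E
    have hfin : Module.finrank K E ≠ 1 := by
      intro h1
      have hsurj : Function.Surjective (algebraMap K E) := by
        have : (⊥ : Subalgebra K E) = ⊤ := Subalgebra.bot_eq_top_of_finrank_eq_one h1
        intro x
        have hx : x ∈ (⊥ : Subalgebra K E) := by rw [this]; trivial
        exact Algebra.mem_bot.1 hx
      have hsp := Polynomial.SplittingField.splits f
      have hdeg : f.degree ≠ 0 := by
        intro h0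
        exact hf.not_isUnit (Polynomial.isUnit_iff_degree_eq_zero.2 h0)
      obtain ⟨x, hx⟩ := hsp.exists_eval_eq_zero (by
        rw [Polynomial.degree_map]; exact hdeg)
      obtain ⟨y, rfl⟩ := hsurj x
      rw [Polynomial.eval_map, Polynomial.eval₂_at_apply] at hx
      exact hroot ⟨y, (algebraMap K E).injective (by rw [hx, map_zero])⟩
    obtain ⟨q, hq, hqd⟩ := Nat.exists_prime_and_dvd hfin
    have hq' : Fact q.Prime := ⟨hq⟩
    have hpos : Module.finrank K E ≠ 0 := Module.finrank_pos.ne'
    obtain ⟨v, o, ho, hvo⟩ := Nat.exists_eq_pow_mul_and_not_dvd hpos q hq.ne_one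
    have hv : v ≠ 0 := by
      rintro rfl
      rw [pow_zero, one_mul] at hvo
      exact ho (hvo ▸ hqd)
    have hdeg : ∀ k, q ^ k ∣ Nat.card (E ≃ₐ[K] E) → ∀ t : ℕ+,
        (t : ℕ) * q ^ k = Module.finrank K E → Nrm K t := by
      intro k hk t ht
      obtain ⟨H, hH⟩ := Sylow.exists_subgroup_card_pow_prime q hk
      refine nrm_of_ext (IntermediateField.fixedField H) t ?_
      have e1 : Module.finrank (IntermediateField.fixedField H) E = q ^ k := by
        rw [IntermediateField.finrank_fixedField_eq_card, hH]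
      have e2 := Module.finrank_mul_finrank K (IntermediateField.fixedField H) E
      rw [e1, ← ht] at e2
      exact Nat.eq_of_mul_eq_mul_right (pow_pos hq.pos k) e2
    have ho0 : 0 < o := by
      rcases Nat.eq_zero_or_pos o with h | h
      · rw [h] at ho; simp at ho
      · exact h
    obtain ⟨k, rfl⟩ := Nat.exists_eq_succ_of_ne_zero hv
    refine ⟨⟨q, hq.pos⟩, ⟨o, ho0⟩, hq, ?_, ?_⟩
    · refine hdeg (k + 1) ?_ _ ?_
      · rw [hcard, hvo]; exact Dvd.intro _ rfl
      · rw [hvo]
        exact mul_comm _ _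
    · refine hdeg k ?_ _ ?_
      · rw [hcard, hvo]
        exact (pow_dvd_pow q (Nat.le_succ k)).trans (Dvd.intro _ rfl)
      · rw [hvo, PNat.mul_coe]
        show q * o * q ^ k = q ^ (k + 1) * o
        ring
  · -- an inseparable extension
    obtain ⟨q, hqexp⟩ := ExpChar.exists K
    have hqp : q.Prime := by
      rcases hqexp with _ | hq
      · exact absurd (inferInstance : PerfectField K) hperf
      · exact hq
    have hnsurj : ¬ Function.Surjective (frobenius K q) := by
      intro hs
      have : PerfectRing K q := PerfectRing.ofSurjective K q hs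
      exact hperf (PerfectRing.toPerfectField K q)
    obtain ⟨a, ha⟩ : ∃ a : K, ∀ b : K, b ^ q ≠ a := by
      by_contra hcon
      push Not at hcon
      exact hnsurj fun a => by
        obtain ⟨b, hb⟩ := hcon a
        exact ⟨b, by rw [frobenius_def]; exact hb⟩
    have hirr := X_pow_sub_C_irreducible_of_prime hqp ha
    have hfact : Fact (Irreducible (Polynomial.X ^ q - Polynomial.C a)) := ⟨hirr⟩
    have hne : (Polynomial.X ^ q - Polynomial.C a : Polynomial K) ≠ 0 := hirr.ne_zero
    have hfd : FiniteDimensional K (AdjoinRoot (Polynomial.X ^ q - Polynomial.C a)) :=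
      (AdjoinRoot.powerBasis hne).finite
    have hfr : Module.finrank K (AdjoinRoot (Polynomial.X ^ q - Polynomial.C a)) = q := by
      rw [(AdjoinRoot.powerBasis hne).finrank, AdjoinRoot.powerBasis_dim hne,
        Polynomial.natDegree_X_pow_sub_C]
    refine ⟨⟨q, hqp.pos⟩, 1, hqp, Nrm.one, ?_⟩
    rw [mul_one]
    exact nrm_of_ext (AdjoinRoot (Polynomial.X ^ q - Polynomial.C a)) ⟨q, hqp.pos⟩ hfr

/-- the case of non algebraically closed fields -/
theorem weights_le_of_not_closed (hC : IsC1 K) (hK : ¬ IsAlgClosed K) {J I : Type} [Fintype J]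
    [Fintype I] (w : J → ℕ+) (D : I → ℕ+) (h : Aniso K w D) :
    ∑ j, (w j : ℕ) ≤ ∑ i, (D i : ℕ) := by
  obtain ⟨p, o, hp, ho, hpo⟩ := exists_prime hK
  refine weights_le hC ⟨p * o, ?_, hpo⟩ hp (fun D => ?_) w D h
  · have h1 : 1 < (p : ℕ) := hp.one_lt
    have h2 : 0 < (o : ℕ) := o.pos
    show ((1 : ℕ+) : ℕ) < ((p * o : ℕ+) : ℕ)
    rw [PNat.mul_coe]
    show 1 < (p : ℕ) * o
    nlinarith
  · have e1 := rho_nrm hC hpo D
    have e2 := rho_nrm hC ho (p * D)
    have e3 : p * o * D = o * (p * D) := by ac_rfl
    rw [e3, e2] at e1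
    have ho0 : (0 : ℝ) < o := by exact_mod_cast o.pos
    rw [PNat.mul_coe] at e1
    push_cast at e1
    have : (o : ℝ) * rho K (p * D) = (o : ℝ) * (p * rho K D) := by rw [e1]; ring
    exact mul_left_cancel₀ ho0.ne' this

end Pool.Agent.Helper45.SC1
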