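import Pool.Agent.Helper45.SC1.Semi

set_option autoImplicit false

open MonoidAlgebra Finset

namespace Pool.Agent.Helper45.SC1

variable {K : Type*} [Field K]

/-- normic degrees -/
def Nrm (K : Type*) [Field K] (t : ℕ+) : Prop := Le K ((t : ℕ) : Sys) (sg t)

lemma Nrm.one : Nrm K 1 := by
  have := Le.one_sg (K := K) 1
  simpa [Nrm] using this

lemma Nrm.mul {s t : ℕ+} (hs : Nrm K s) (ht : Nrm K t) : Nrm K (s * t) := by
  have := Le.mul hs ht
  rwa [← Nat.cast_mul, ← PNat.mul_coe, ← sg_mul] at this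

lemma Nrm.pow {s : ℕ+} (hs : Nrm K s) (n : ℕ) : Nrm K (s ^ n) := by
  induction n with
  | zero => rw [pow_zero]; exact Nrm.one
  | succ n ih => rw [pow_succ]; exact ih.mul hs

/-- the set of the ratios -/
def RS (K : Type*) [Field K] (D : ℕ+) : Set ℝ :=
  {x : ℝ | ∃ (t : ℕ+) (n : ℕ), Nrm K t ∧ Le K (n : Sys) (sg (t * D)) ∧ x = n / t}

/-- the best ratio of an anisotropic form of degree `D`, up to normic degrees -/
noncomputable def rho (K : Type*) [Field K] (D : ℕ+) : ℝ := sSup (RS K D)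

lemma RS_le (hK : IsC1 K) {D : ℕ+} {x : ℝ} (hx : x ∈ RS K D) : x ≤ D := by
  obtain ⟨t, n, ht, h, rfl⟩ := hx
  have h1 : n ≤ ((t * D : ℕ+) : ℕ) := h.le_of_C1 hK
  have h2 : (0 : ℝ) < t := by exact_mod_cast t.pos
  rw [div_le_iff₀ h2]
  have h3 : (n : ℝ) ≤ ((t : ℕ) : ℝ) * ((D : ℕ) : ℝ) := by
    rw [PNat.mul_coe] at h1
    exact_mod_cast h1
  linarith

lemma RS_bdd (hK : IsC1 K) (D : ℕ+) : BddAbove (RS K D) := ⟨D, fun _ hx => RS_le hK hx⟩

lemma one_mem_RS (D : ℕ+) : (1 : ℝ) ∈ RS K D := by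
  refine ⟨1, 1, Nrm.one, ?_, by simp⟩
  rw [one_mul, Nat.cast_one]
  exact Le.one_sg D

lemma le_rho (hK : IsC1 K) {D t : ℕ+} {n : ℕ} (ht : Nrm K t) (h : Le K (n : Sys) (sg (t * D))) :
    (n : ℝ) / t ≤ rho K D :=
  le_csSup (RS_bdd hK D) ⟨t, n, ht, h, rfl⟩

lemma one_le_rho (hK : IsC1 K) (D : ℕ+) : 1 ≤ rho K D :=
  le_csSup (RS_bdd hK D) (one_mem_RS D)

lemma rho_pos (hK : IsC1 K) (D : ℕ+) : 0 < rho K D := lt_of_lt_of_le one_pos (one_le_rho hK D)

lemma rho_le (hK : IsC1 K) (D : ℕ+) : rho K D ≤ D :=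
  csSup_le ⟨1, one_mem_RS D⟩ fun _ hx => RS_le hK hx

/-- `x` is beaten at level `t` -/
def Good (K : Type*) [Field K] (t D : ℕ+) (x : ℝ) : Prop :=
  ∃ n : ℕ, Le K (n : Sys) (sg (t * D)) ∧ x < n / t

lemma exists_good {D : ℕ+} {x : ℝ} (hx : x < rho K D) : ∃ t, Nrm K t ∧ Good K t D x := by
  obtain ⟨y, ⟨t, n, ht, h, rfl⟩, hy⟩ := exists_lt_of_lt_csSup ⟨1, one_mem_RS D⟩ hx
  exact ⟨t, ht, n, h, hy⟩

lemma Good.scale {s t D : ℕ+} {x : ℝ} (hs : Nrm K s) (h : Good K t D x) :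
    Good K (s * t) D x := by
  obtain ⟨n, h1, h2⟩ := h
  refine ⟨s * n, ?_, ?_⟩
  · have := Le.mul hs h1
    rwa [← Nat.cast_mul, ← sg_mul, ← mul_assoc] at this
  · have hs' : (0 : ℝ) < s := by exact_mod_cast s.pos
    rw [PNat.mul_coe, Nat.cast_mul, Nat.cast_mul, mul_div_mul_left _ _ hs'.ne']
    exact h2

lemma exists_common {ι : Type*} (s : Finset ι) (D : ι → ℕ+) (x : ι → ℝ)
    (h : ∀ i ∈ s, x i < rho K (D i)) : ∃ t, Nrm K t ∧ ∀ i ∈ s, Good K t (D i) (x i) := by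
  classical
  induction s using Finset.induction_on with
  | empty => exact ⟨1, Nrm.one, by simp⟩
  | insert i s hi ih =>
    obtain ⟨t, ht, h1⟩ := ih fun j hj => h j (mem_insert_of_mem hj)
    obtain ⟨u, hu, h2⟩ := exists_good (h i (mem_insert_self i s))
    refine ⟨t * u, ht.mul hu, ?_⟩
    intro j hj
    rcases mem_insert.1 hj with rfl | hj
    · exact h2.scale ht
    · rw [mul_comm t u]
      exact (h1 j hj).scale hu

lemma rho_mul (hK : IsC1 K) (a b : ℕ+) : rho K a * rho K b ≤ rho K (a * b) := by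
  have hb := rho_pos hK b
  rw [← le_div_iff₀ hb]
  apply csSup_le ⟨1, one_mem_RS a⟩
  rintro x ⟨t, n, ht, h, rfl⟩
  rw [le_div_iff₀ hb]
  by_cases hn : n = 0
  · subst hn
    simp only [CharP.cast_eq_zero, zero_div, zero_mul]
    exact (rho_pos hK _).le
  have hn' : (0 : ℝ) < n := by exact_mod_cast Nat.pos_of_ne_zero hn
  have ht' : (0 : ℝ) < t := by exact_mod_cast t.pos
  have hx : (0 : ℝ) < n / t := div_pos hn' ht'
  rw [mul_comm, ← le_div_iff₀ hx]
  apply csSup_le ⟨1, one_mem_RS b⟩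
  rintro x ⟨t', n', ht2, h2, rfl⟩
  rw [le_div_iff₀ hx]
  have := le_rho hK (D := a * b) (ht.mul ht2) (n := n * n') (by
    have := Le.mul h h2
    rw [← Nat.cast_mul, ← sg_mul] at this
    rwa [mul_mul_mul_comm] at this)
  refine le_of_eq_of_le ?_ this
  rw [PNat.mul_coe]
  push_cast
  rw [div_mul_div_comm, mul_comm (n' : ℝ), mul_comm ((t' : ℕ) : ℝ)]

lemma rho_pow (hK : IsC1 K) (a : ℕ+) (n : ℕ) : rho K a ^ n ≤ rho K (a ^ n) := by
  induction n with
  | zero => rw [pow_zero, pow_zero]; exact one_le_rho hK 1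
  | succ n ih =>
    rw [pow_succ, pow_succ]
    exact (mul_le_mul_of_nonneg_right ih (rho_pos hK a).le).trans (rho_mul hK _ _)

lemma rho_add (hK : IsC1 K) (a b : ℕ+) : min (rho K a) (rho K b) ≤ rho K (a + b) := by
  by_contra hcon
  push Not at hcon
  obtain ⟨h1, h2⟩ := lt_min_iff.1 hcon
  obtain ⟨t, ht, h⟩ := exists_common (K := K) (univ : Finset Bool)
    (fun i => if i then a else b) (fun _ => rho K (a + b)) (by
      intro i _
      rcases i with _ | _
      · simpa using h2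
      · simpa using h1)
  obtain ⟨n, e1, e2⟩ := h true (mem_univ _)
  obtain ⟨m, f1, f2⟩ := h false (mem_univ _)
  simp only [if_true] at e1
  simp only [Bool.false_eq_true, if_false] at f1
  have g1 : Le K ((min n m : ℕ) : Sys) (sg (t * a)) := (Le.natCast (min_le_left _ _)).trans e1
  have g2 : Le K ((min n m : ℕ) : Sys) (sg (t * b)) := (Le.natCast (min_le_right _ _)).trans f1
  have g3 := le_rho hK (D := a + b) ht (by rw [mul_add]; exact g1.add_degree g2)
  rcases le_total n m with hnm | hnm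
  · rw [min_eq_left hnm] at g3; linarith
  · rw [min_eq_right hnm] at g3; linarith

lemma rho_nrm (hK : IsC1 K) {t : ℕ+} (ht : Nrm K t) (D : ℕ+) : rho K (t * D) = t * rho K D := by
  have ht' : (0 : ℝ) < t := by exact_mod_cast t.pos
  apply le_antisymm
  · apply csSup_le ⟨1, one_mem_RS _⟩
    rintro x ⟨s, n, hs, h, rfl⟩
    have := le_rho hK (D := D) (hs.mul ht) (n := n) (by rwa [mul_assoc])
    rw [PNat.mul_coe] at this
    push_cast at this
    have hs' : (0 : ℝ) < s := by exact_mod_cast s.pos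
    rw [div_le_iff₀ (mul_pos hs' ht')] at this
    rw [div_le_iff₀ hs']
    linarith
  · rw [mul_comm, ← le_div_iff₀ ht']
    apply csSup_le ⟨1, one_mem_RS _⟩
    rintro x ⟨s, n, hs, h, rfl⟩
    rw [le_div_iff₀ ht']
    have := le_rho hK (D := t * D) hs (n := t * n) (by
      have := Le.mul ht h
      rw [← Nat.cast_mul, ← sg_mul] at this
      rwa [mul_left_comm] at this)
    refine le_of_eq_of_le ?_ this
    push_cast
    ring

end Pool.Agent.Helper45.SC1
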