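import Pool.Agent.Helper45.SC1.Aniso

set_option autoImplicit false

open MonoidAlgebra

namespace Pool.Agent.Helper45.SC1

/-- formal sums of weights -/
abbrev Sys : Type := MonoidAlgebra ℕ ℕ+

/-- the class of a finite family of weights -/
noncomputable def cls {J : Type} [Fintype J] (w : J → ℕ+) : Sys := ∑ j, single (w j) 1

/-- the class of one weight -/
noncomputable def sg (a : ℕ+) : Sys := single a 1

lemma sg_mul (a b : ℕ+) : sg (a * b) = sg a * sg b := by
  simp [sg, single_mul_single]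

lemma sg_one : sg 1 = 1 := rfl

lemma cls_coeff {J : Type} [Fintype J] (w : J → ℕ+) (c : ℕ+) :
    (cls w).coeff c = Fintype.card {j // w j = c} := by
  classical
  unfold cls
  rw [coeff_sum, Finsupp.finsetSum_apply]
  simp only [coeff_single, Finsupp.single_apply]
  rw [Finset.sum_boole, Fintype.card_subtype]
  simp

lemma exists_equiv {J J' : Type} [Fintype J] [Fintype J'] {w : J → ℕ+} {w' : J' → ℕ+}
    (h : cls w = cls w') : ∃ e : J ≃ J', ∀ j, w' (e j) = w j := by
  classical
  have h1 : ∀ c, Nonempty ({j // w j = c} ≃ {j // w' j = c}) := by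
    intro c
    rw [← Fintype.card_eq, ← cls_coeff, ← cls_coeff, h]
  exact ⟨Equiv.ofFiberEquiv (fun c => (h1 c).some), fun j => Equiv.ofFiberEquiv_map _ _⟩

variable {K : Type*} [Field K]

/-- the preorder: there is an anisotropic system with weights `a` and degrees `b` -/
def Le (K : Type*) [Field K] (a b : Sys) : Prop :=
  ∃ (J I : Type) (_ : Fintype J) (_ : Fintype I) (w : J → ℕ+) (D : I → ℕ+),
    cls w = a ∧ cls D = b ∧ Aniso K w D

lemma le_cls_iff {J I : Type} [Fintype J] [Fintype I] {w : J → ℕ+} {D : I → ℕ+} :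
    Le K (cls w) (cls D) ↔ Aniso K w D := by
  constructor
  · rintro ⟨J', I', _, _, w', D', hw, hD, h⟩
    obtain ⟨e, he⟩ := exists_equiv hw.symm
    obtain ⟨f, hf⟩ := exists_equiv hD.symm
    have := (h.reindexJ e).reindexI f
    simpa only [he, hf] using this
  · intro h
    exact ⟨J, I, _, _, w, D, rfl, rfl, h⟩

lemma cls_sum {J J' : Type} [Fintype J] [Fintype J'] (w : J → ℕ+) (w' : J' → ℕ+) :
    cls (Sum.elim w w') = cls w + cls w' := by
  simp [cls]

lemma cls_prod {J J' : Type} [Fintype J] [Fintype J'] (w : J → ℕ+) (w' : J' → ℕ+) :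
    cls (fun p : J × J' => w p.1 * w' p.2) = cls w * cls w' := by
  unfold cls
  rw [Finset.sum_mul_sum, ← Finset.univ_product_univ, Finset.sum_product]
  simp only [single_mul_single, mul_one]

lemma cls_const {J : Type} [Fintype J] (a : ℕ+) :
    cls (fun _ : J => a) = (Fintype.card J : Sys) * sg a := by
  simp [cls, sg, natCast_def, single_mul_single]

lemma cls_unit (a : ℕ+) : cls (fun _ : Unit => a) = sg a := by
  simp [cls, sg]

lemma exists_rep (a : Sys) : ∃ (J : Type) (_ : Fintype J) (w : J → ℕ+), cls w = a := by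
  induction a using MonoidAlgebra.induction_linear with
  | zero => exact ⟨Empty, inferInstance, Empty.elim, by simp [cls]⟩
  | add x y hx hy =>
    obtain ⟨J, _, w, rfl⟩ := hx
    obtain ⟨J', _, w', rfl⟩ := hy
    exact ⟨J ⊕ J', inferInstance, Sum.elim w w', cls_sum w w'⟩
  | single m r =>
    refine ⟨Fin r, inferInstance, fun _ => m, ?_⟩
    rw [cls_const]
    simp [sg, natCast_def, single_mul_single]

lemma Le.refl (a : Sys) : Le K a a := by
  obtain ⟨J, _, w, rfl⟩ := exists_rep a
  exact le_cls_iff.2 (Aniso.refl w)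

lemma Le.trans {a b c : Sys} (h1 : Le K a b) (h2 : Le K b c) : Le K a c := by
  obtain ⟨J, _, w, rfl⟩ := exists_rep a
  obtain ⟨I, _, D, rfl⟩ := exists_rep b
  obtain ⟨L, _, E, rfl⟩ := exists_rep c
  rw [le_cls_iff] at *
  exact h1.trans h2

lemma Le.add {a b c d : Sys} (h1 : Le K a b) (h2 : Le K c d) : Le K (a + c) (b + d) := by
  obtain ⟨J, _, w, rfl⟩ := exists_rep a
  obtain ⟨I, _, D, rfl⟩ := exists_rep b
  obtain ⟨J', _, w', rfl⟩ := exists_rep c
  obtain ⟨I', _, D', rfl⟩ := exists_rep d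
  rw [le_cls_iff] at h1 h2
  rw [← cls_sum, ← cls_sum, le_cls_iff]
  exact h1.sum h2

lemma Le.mul {a b c d : Sys} (h1 : Le K a b) (h2 : Le K c d) : Le K (a * c) (b * d) := by
  obtain ⟨J, _, w, rfl⟩ := exists_rep a
  obtain ⟨I, _, D, rfl⟩ := exists_rep b
  obtain ⟨J', _, w', rfl⟩ := exists_rep c
  obtain ⟨I', _, D', rfl⟩ := exists_rep d
  rw [le_cls_iff] at h1 h2
  rw [← cls_prod, ← cls_prod, le_cls_iff]
  exact h1.mul h2

lemma Le.zero (a : Sys) : Le K 0 a := by
  obtain ⟨I, _, D, rfl⟩ := exists_rep a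
  have : (0 : Sys) = cls (Empty.elim : Empty → ℕ+) := by simp [cls]
  rw [this, le_cls_iff]
  have h := (Aniso.refl (K := K) D).restrict (Empty.elim : Empty → I) (fun x => x.elim)
  have e : (fun j : Empty => D (Empty.elim j)) = (Empty.elim : Empty → ℕ+) :=
    funext fun x => x.elim
  rw [e] at h
  exact h

lemma Le.self_add (a b : Sys) : Le K a (a + b) := by
  have := (Le.refl (K := K) a).add (Le.zero b)
  rwa [add_zero] at this

lemma Le.natCast {m n : ℕ} (h : m ≤ n) : Le K (m : Sys) (n : Sys) := by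
  obtain ⟨k, rfl⟩ := Nat.exists_eq_add_of_le h
  rw [Nat.cast_add]
  exact Le.self_add _ _

lemma Le.pow {a b : Sys} (h : Le K a b) (n : ℕ) : Le K (a ^ n) (b ^ n) := by
  induction n with
  | zero => rw [pow_zero, pow_zero]; exact Le.refl _
  | succ n ih => rw [pow_succ, pow_succ]; exact ih.mul h

lemma Le.sum {ι : Type*} (s : Finset ι) {a b : ι → Sys} (h : ∀ i ∈ s, Le K (a i) (b i)) :
    Le K (∑ i ∈ s, a i) (∑ i ∈ s, b i) := by
  classical
  induction s using Finset.induction_on with
  | empty => simp only [Finset.sum_empty]; exact Le.refl _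
  | insert i s hi ih =>
    rw [Finset.sum_insert hi, Finset.sum_insert hi]
    exact (h i (Finset.mem_insert_self i s)).add
      (ih fun j hj => h j (Finset.mem_insert_of_mem hj))

lemma Le.one_sg (a : ℕ+) : Le K 1 (sg a) := by
  have := Aniso.power (K := K) a
  rw [← le_cls_iff, cls_unit, cls_unit, sg_one] at this
  exact this

lemma natCast_eq_cls (n : ℕ) : (n : Sys) = cls (fun _ : Fin n => (1 : ℕ+)) := by
  rw [cls_const, sg_one, mul_one, Fintype.card_fin]

/-- the product of two forms -/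
lemma Le.add_degree {n : ℕ} {a b : ℕ+} (h1 : Le K (n : Sys) (sg a)) (h2 : Le K (n : Sys) (sg b)) :
    Le K (n : Sys) (sg (a + b)) := by
  rw [natCast_eq_cls, ← cls_unit, le_cls_iff] at *
  exact h1.prodForms h2

lemma Le.le_of_C1 (hK : IsC1 K) {n : ℕ} {D : ℕ+} (h : Le K (n : Sys) (sg D)) : n ≤ D := by
  rw [natCast_eq_cls, ← cls_unit, le_cls_iff] at h
  exact h.le_of_C1 hK

end Pool.Agent.Helper45.SC1
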