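import Pool.Agent.Helper45.SC1.Rho

set_option autoImplicit false

open MonoidAlgebra Finset

namespace Pool.Agent.Helper45.SC1

variable {K : Type*} [Field K]

lemma cls_eq_sum {J : Type} [Fintype J] (w : J → ℕ+) : cls w = ∑ j, sg (w j) := rfl

/-- the counting step: many variables against `R` copies of one degree -/
lemma count_step (hK : IsC1 K) {A R : ℕ} {F : ℕ+} (h : Le K (A : Sys) ((R : Sys) * sg F))
    (hT : ∃ e : ℕ+, 1 < e ∧ Nrm K e) : (A : ℝ) ≤ R * rho K F := by
  obtain ⟨e, he1, he⟩ := hT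
  have h1 : ∀ c m : ℕ, c * R ≤ (e : ℕ) ^ m → ((c * A : ℕ) : ℝ) ≤ (e : ℝ) ^ m * rho K F := by
    intro c m hcm
    have e1 : Le K ((c * A : ℕ) : Sys) ((((e ^ m : ℕ+) : ℕ) : Sys) * sg F) := by
      have := (Le.refl (K := K) (c : Sys)).mul h
      rw [← Nat.cast_mul, ← mul_assoc, ← Nat.cast_mul] at this
      refine this.trans ((Le.natCast ?_).mul (Le.refl _))
      rw [PNat.pow_coe]
      exact hcm
    have e2 : Le K ((c * A : ℕ) : Sys) (sg (e ^ m * F)) := by
      rw [sg_mul]
      exact e1.trans (Le.mul (he.pow m) (Le.refl _))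
    have e3 := le_rho hK (he.pow m) e2
    have e4 : (0 : ℝ) < ((e ^ m : ℕ+) : ℕ) := by exact_mod_cast (e ^ m).pos
    rw [div_le_iff₀ e4] at e3
    rw [PNat.pow_coe] at e3
    push_cast at e3 ⊢
    linarith
  rcases Nat.eq_zero_or_pos R with rfl | hR
  · -- no equations
    simp only [CharP.cast_eq_zero, zero_mul]
    by_contra hcon
    push Not at hcon
    obtain ⟨c, hc⟩ := exists_nat_gt (rho K F)
    have h2 := h1 c 0 (by simp)
    have h3 : (1 : ℝ) ≤ A := by
      have : 0 < A := by exact_mod_cast hcon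
      exact_mod_cast this
    push_cast at h2
    rw [pow_zero, one_mul] at h2
    have hc0 : (0 : ℝ) ≤ c := Nat.cast_nonneg c
    nlinarith
  · have hR' : (0 : ℝ) < R := by exact_mod_cast hR
    have hA : (0 : ℝ) ≤ A := Nat.cast_nonneg A
    have h2 : ∀ m : ℕ, (A : ℝ) ≤ R * rho K F + A * R * (1 / (e : ℝ)) ^ m := by
      intro m
      have h3 := h1 ((e : ℕ) ^ m / R) m (Nat.div_mul_le_self _ _)
      have h4 : (e : ℕ) ^ m < R * ((e : ℕ) ^ m / R + 1) := by
        exact Nat.lt_mul_div_succ _ hR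
      have h5 : ((e : ℝ)) ^ m < R * ((((e : ℕ) ^ m / R : ℕ) : ℝ) + 1) := by
        have : (((e : ℕ) ^ m : ℕ) : ℝ) < ((R * ((e : ℕ) ^ m / R + 1) : ℕ) : ℝ) := by
          exact_mod_cast h4
        push_cast at this
        exact_mod_cast this
      have he0 : (0 : ℝ) < (e : ℝ) ^ m := by
        have : (0 : ℝ) < e := by exact_mod_cast e.pos
        positivity
      rw [one_div, inv_pow]
      push_cast at h3
      set q : ℝ := (((e : ℕ) ^ m / R : ℕ) : ℝ)
      have h6 : (A : ℝ) * (e : ℝ) ^ m ≤ (R * rho K F) * (e : ℝ) ^ m + A * R := by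
        have g1 : (A : ℝ) * (e : ℝ) ^ m ≤ A * (R * (q + 1)) :=
          mul_le_mul_of_nonneg_left h5.le hA
        have g2 : (A : ℝ) * (R * (q + 1)) = R * (q * A) + A * R := by ring
        have g3 : (R : ℝ) * (q * A) ≤ R * ((e : ℝ) ^ m * rho K F) :=
          mul_le_mul_of_nonneg_left h3 hR'.le
        linarith
      have h7 : (A : ℝ) ≤ ((R * rho K F) * (e : ℝ) ^ m + A * R) / (e : ℝ) ^ m := by
        rw [le_div_iff₀ he0]; exact h6
      rw [add_div, mul_div_assoc, div_self he0.ne', mul_one] at h7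
      exact h7
    have h8 : Filter.Tendsto (fun m : ℕ => R * rho K F + A * R * (1 / (e : ℝ)) ^ m)
        Filter.atTop (nhds (R * rho K F + A * R * 0)) := by
      apply Filter.Tendsto.const_add
      apply Filter.Tendsto.const_mul
      apply tendsto_pow_atTop_nhds_zero_of_lt_one
      · positivity
      · have : (1 : ℝ) < e := by exact_mod_cast he1
        rw [div_lt_one (by linarith)]
        exact this
    rw [mul_zero, add_zero] at h8
    exact ge_of_tendsto' h8 h2

/-- the inequality at a common level -/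
lemma one_step_aux (hK : IsC1 K) (hT : ∃ e : ℕ+, 1 < e ∧ Nrm K e) {J I : Type} [Fintype J]
    [Fintype I] (w : J → ℕ+) (D : I → ℕ+) (h : Le K (cls w) (cls D)) (F : ℕ+) (E : I → ℕ+)
    (hE : ∀ i, D i * E i = F) (t : ℕ+) (ht : Nrm K t) (s : J → ℕ) (r : I → ℕ)
    (hs : ∀ j, Le K (s j : Sys) (sg (t * w j))) (hr : ∀ i, Le K (r i : Sys) (sg (t * E i)))
    (hr0 : ∀ i, 0 < r i) :
    ∑ j, (s j : ℝ) / t ≤ rho K F * ∑ i, ((r i : ℝ) / t)⁻¹ := by
  classical
  set P : I → ℕ := fun i => ∏ i' ∈ univ.erase i, r i' with hP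
  set B : ℕ := ∏ i, r i with hB
  have hPB : ∀ i, P i * r i = B := fun i => prod_erase_mul _ _ (mem_univ i)
  set R : ℕ := ∑ i, P i with hR
  set S : ℕ := ∑ j, s j with hS
  have hB0 : (0 : ℝ) < B := by
    have : 0 < B := prod_pos fun i _ => hr0 i
    exact_mod_cast this
  have ht0 : (0 : ℝ) < t := by exact_mod_cast t.pos
  -- the equations
  have e1 : Le K ((B : Sys) * cls D) ((R : Sys) * sg (t * F)) := by
    have : ((B : Sys) * cls D) = ∑ i, ((P i : Sys) * ((r i : Sys) * sg (D i))) := by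
      rw [cls_eq_sum, mul_sum]
      refine sum_congr rfl fun i _ => ?_
      rw [← mul_assoc, ← Nat.cast_mul, hPB]
    rw [this, hR, Nat.cast_sum, sum_mul]
    refine Le.sum _ fun i _ => (Le.refl _).mul ?_
    have := (hr i).mul (Le.refl (K := K) (sg (D i)))
    rwa [← sg_mul, mul_assoc, mul_comm (E i), hE] at this
  -- the variables
  have e2 : Le K (S : Sys) (sg t * cls w) := by
    rw [hS, Nat.cast_sum, cls_eq_sum, mul_sum]
    refine Le.sum _ fun j _ => ?_
    rw [← sg_mul]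
    exact hs j
  have e3 : Le K ((B * S : ℕ) : Sys) ((R : Sys) * sg (t * (t * F))) := by
    have g1 : Le K ((B : Sys) * (S : Sys)) ((B : Sys) * (sg t * cls w)) := (Le.refl _).mul e2
    have g2 : Le K (sg t * ((B : Sys) * cls w)) (sg t * ((B : Sys) * cls D)) :=
      (Le.refl _).mul ((Le.refl _).mul h)
    have g3 : Le K (sg t * ((B : Sys) * cls D)) (sg t * ((R : Sys) * sg (t * F))) :=
      (Le.refl _).mul e1
    rw [Nat.cast_mul, sg_mul, mul_left_comm (R : Sys)]
    refine g1.trans ?_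
    rw [mul_left_comm (B : Sys)]
    exact g2.trans g3
  have e4 := count_step hK e3 hT
  rw [rho_nrm hK ht, rho_nrm hK ht] at e4
  push_cast at e4
  have e5 : ∑ i, ((r i : ℝ) / t)⁻¹ = t * (R / B) := by
    rw [hR, Nat.cast_sum, sum_div, mul_sum]
    refine sum_congr rfl fun i _ => ?_
    have hri : (0 : ℝ) < r i := by exact_mod_cast hr0 i
    have : (B : ℝ) = P i * r i := by rw [← hPB i]; push_cast; ring
    rw [inv_div, this]
    have hPi : (P i : ℝ) ≠ 0 := by
      intro h0
      rw [h0, zero_mul] at this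
      exact hB0.ne' this
    field_simp
  rw [e5, ← sum_div, ← Nat.cast_sum, ← hS]
  rw [div_le_iff₀ ht0]
  have e6 : rho K F * (t * (R / B)) * t = (R * (t * (t * rho K F))) / B := by ring
  rw [e6, le_div_iff₀ hB0]
  linarith

/-- **The one step inequality.** -/
lemma one_step (hK : IsC1 K) (hT : ∃ e : ℕ+, 1 < e ∧ Nrm K e) {J I : Type} [Fintype J]
    [Fintype I] (w : J → ℕ+) (D : I → ℕ+) (h : Le K (cls w) (cls D)) (F : ℕ+) (E : I → ℕ+)
    (hE : ∀ i, D i * E i = F) :
    ∑ j, rho K (w j) ≤ rho K F * ∑ i, (rho K (E i))⁻¹ := by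
  classical
  have key : ∀ δ : ℝ, 0 < δ → δ < 1 → (1 - δ) * (1 - δ) * ∑ j, rho K (w j) ≤
      rho K F * ∑ i, (rho K (E i))⁻¹ := by
    intro δ h0 h1
    obtain ⟨t, ht, hg⟩ := exists_common (K := K) (univ : Finset (J ⊕ I)) (Sum.elim w E)
      (Sum.elim (fun j => (1 - δ) * rho K (w j)) (fun i => (1 - δ) * rho K (E i))) (by
        rintro (j | i) _
        · simp only [Sum.elim_inl]
          nlinarith [rho_pos hK (w j)]
        · simp only [Sum.elim_inr]
          nlinarith [rho_pos hK (E i)])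
    have hg1 : ∀ j, Good K t (w j) ((1 - δ) * rho K (w j)) := fun j => hg (Sum.inl j) (mem_univ _)
    have hg2 : ∀ i, Good K t (E i) ((1 - δ) * rho K (E i)) := fun i => hg (Sum.inr i) (mem_univ _)
    choose s hs1 hs2 using hg1
    choose r hr1 hr2 using hg2
    have ht0 : (0 : ℝ) < t := by exact_mod_cast t.pos
    have hr0 : ∀ i, 0 < r i := by
      intro i
      have e1 : 0 < (1 - δ) * rho K (E i) := mul_pos (by linarith) (rho_pos hK _)
      have e2 : (0 : ℝ) < (r i : ℝ) / t := e1.trans (hr2 i)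
      rw [div_pos_iff_of_pos_right ht0] at e2
      exact_mod_cast e2
    have main := one_step_aux hK hT w D h F E hE t ht s r hs1 hr1 hr0
    have e1 : (1 - δ) * ∑ j, rho K (w j) ≤ ∑ j, (s j : ℝ) / t := by
      rw [mul_sum]
      exact sum_le_sum fun j _ => (hs2 j).le
    have e2 : ∑ i, ((r i : ℝ) / t)⁻¹ ≤ (1 - δ)⁻¹ * ∑ i, (rho K (E i))⁻¹ := by
      rw [mul_sum]
      refine sum_le_sum fun i _ => ?_
      rw [← mul_inv]
      exact inv_anti₀ (mul_pos (by linarith) (rho_pos hK _)) (hr2 i).le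
    have e3 : (1 - δ) * ∑ j, rho K (w j) ≤ rho K F * ((1 - δ)⁻¹ * ∑ i, (rho K (E i))⁻¹) :=
      e1.trans (main.trans (mul_le_mul_of_nonneg_left e2 (rho_pos hK F).le))
    have h2 : 0 < 1 - δ := by linarith
    calc (1 - δ) * (1 - δ) * ∑ j, rho K (w j) = (1 - δ) * ((1 - δ) * ∑ j, rho K (w j)) := by ring
      _ ≤ (1 - δ) * (rho K F * ((1 - δ)⁻¹ * ∑ i, (rho K (E i))⁻¹)) :=
          mul_le_mul_of_nonneg_left e3 h2.le
      _ = rho K F * ∑ i, (rho K (E i))⁻¹ := by
          field_simp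
  have h3 : Filter.Tendsto (fun n : ℕ => (1 - 1 / ((n : ℝ) + 2)) * (1 - 1 / ((n : ℝ) + 2)) *
      ∑ j, rho K (w j)) Filter.atTop (nhds ((1 - 0) * (1 - 0) * ∑ j, rho K (w j))) := by
    have h4 : Filter.Tendsto (fun n : ℕ => 1 / ((n : ℝ) + 2)) Filter.atTop (nhds 0) := by
      have := tendsto_one_div_add_atTop_nhds_zero_nat (𝕜 := ℝ)
      have h5 := this.comp (Filter.tendsto_add_atTop_nat 1)
      refine h5.congr fun n => ?_
      simp only [Function.comp_apply]
      push_cast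
      ring_nf
    exact ((tendsto_const_nhds.sub h4).mul (tendsto_const_nhds.sub h4)).mul_const _
  simp only [sub_zero, one_mul] at h3
  refine le_of_tendsto' h3 fun n => ?_
  have hn : (0 : ℝ) ≤ n := Nat.cast_nonneg n
  exact key _ (by positivity) (by rw [div_lt_one (by linarith)]; linarith)

end Pool.Agent.Helper45.SC1
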