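import Pool.Agent.Helper45.SC1.Growth

set_option autoImplicit false

open Finset

namespace Pool.Agent.Helper45.SC1

variable {K : Type*} [Field K]

lemma cls_pow {J : Type} [Fintype J] (w : J → ℕ+) (n : ℕ) :
    cls (fun f : Fin n → J => ∏ s, w (f s)) = cls w ^ n := by
  classical
  rw [cls_eq_sum, cls_eq_sum, Fintype.sum_pow]
  refine sum_congr rfl fun f _ => ?_
  have : ∀ (s : Finset (Fin n)), sg (∏ i ∈ s, w (f i)) = ∏ i ∈ s, sg (w (f i)) := by
    intro s
    induction s using Finset.induction_on with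
    | empty => simp [sg_one]
    | insert i s hi ih => rw [prod_insert hi, prod_insert hi, sg_mul, ih]
  exact this univ

lemma prod_le_pow {J : Type} (w : J → ℕ+) (X : ℝ) (hX : ∀ j, (w j : ℝ) ≤ X) (n : ℕ)
    (f : Fin n → J) : ((∏ s, w (f s) : ℕ+) : ℝ) ≤ X ^ n := by
  have h1 : ((∏ s, w (f s) : ℕ+) : ℝ) = ∏ s, (w (f s) : ℝ) := by
    have : ((∏ s, w (f s) : ℕ+) : ℕ) = ∏ s, (w (f s) : ℕ) :=
      map_prod (PNat.coeMonoidHom) _ _
    rw [this]
    push_cast
    rfl
  rw [h1]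
  calc ∏ s, (w (f s) : ℝ) ≤ ∏ _s : Fin n, X :=
        prod_le_prod (fun s _ => Nat.cast_nonneg _) fun s _ => hX _
    _ = X ^ n := by simp

/-- **Every anisotropic system satisfies the norm inequality.** -/
theorem norm_ineq (hK : IsC1 K) (hT : ∃ e : ℕ+, 1 < e ∧ Nrm K e) {p : ℕ+} (hp : (p : ℕ).Prime)
    (hp1 : ∀ D, rho K (p * D) = p * rho K D) {J I : Type} [Fintype J] [Fintype I]
    (w : J → ℕ+) (D : I → ℕ+) (h : Aniso K w D) :
    ∑ j, Nm K p (w j) ≤ ∑ i, Nm K p (D i) := by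
  classical
  have hle : Le K (cls w) (cls D) := le_cls_iff.2 h
  set a := ∑ j, Nm K p (w j) with ha
  set b := ∑ i, Nm K p (D i) with hb
  have ha0 : 0 ≤ a := sum_nonneg fun j _ => (Nm_pos p (w j)).le
  have hb0 : 0 ≤ b := sum_nonneg fun i _ => (Nm_pos p (D i)).le
  -- a common bound
  set X : ℝ := 1 + ∑ j, (w j : ℝ) + ((∏ i, D i : ℕ+) : ℝ) with hX
  have hX1 : 1 ≤ X := by
    have h1 : 0 ≤ ∑ j, (w j : ℝ) := sum_nonneg fun j _ => Nat.cast_nonneg _
    have h2 : (0 : ℝ) ≤ ((∏ i, D i : ℕ+) : ℝ) := Nat.cast_nonneg _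
    linarith
  have hXw : ∀ j, (w j : ℝ) ≤ X := by
    intro j
    have h1 : (w j : ℝ) ≤ ∑ j, (w j : ℝ) :=
      single_le_sum (f := fun j => (w j : ℝ)) (fun j _ => Nat.cast_nonneg _) (mem_univ j)
    have h2 : (0 : ℝ) ≤ ((∏ i, D i : ℕ+) : ℝ) := Nat.cast_nonneg _
    linarith
  have hXF : ((∏ i, D i : ℕ+) : ℝ) ≤ X := by
    have h1 : 0 ≤ ∑ j, (w j : ℝ) := sum_nonneg fun j _ => Nat.cast_nonneg _
    linarith
  -- the complementary degrees
  set P : I → ℕ+ := fun i => ∏ i' ∈ univ.erase i, D i' with hP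
  have hPD : ∀ i, D i * P i = ∏ i, D i := fun i => mul_prod_erase _ _ (mem_univ i)
  have hXP : ∀ i, (P i : ℝ) ≤ X := by
    intro i
    refine le_trans ?_ hXF
    rw [← hPD i, PNat.mul_coe]
    have : (P i : ℕ) ≤ (D i : ℕ) * P i := Nat.le_mul_of_pos_left _ (D i).pos
    exact_mod_cast this
  have key : ∀ ε : ℝ, 0 < ε → ∃ C : ℝ, 0 < C ∧ ∀ n : ℕ, a ^ n ≤ C * (X ^ ε * X ^ ε * b) ^ n := by
    intro ε hε
    obtain ⟨C, hC, hN⟩ := Nm_le_rho hK hp hp1 ε hε
    refine ⟨C * C, mul_pos hC hC, fun n => ?_⟩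
    have hXn : (0 : ℝ) < X ^ ε := Real.rpow_pos_of_pos (by linarith) _
    have hstep := one_step hK hT (fun f : Fin n → J => ∏ s, w (f s))
      (fun g : Fin n → I => ∏ s, D (g s)) (by rw [cls_pow, cls_pow]; exact hle.pow n)
      ((∏ i, D i) ^ n) (fun g : Fin n → I => ∏ s, P (g s)) (by
        intro g
        rw [← prod_mul_distrib]
        simp only [hPD, prod_const, card_univ, Fintype.card_fin])
    have hpowε : ∀ y : ℝ, 0 ≤ y → y ≤ X ^ n → y ^ ε ≤ (X ^ ε) ^ n := by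
      intro y hy hyX
      have h1 := Real.rpow_le_rpow hy hyX hε.le
      refine h1.trans (le_of_eq ?_)
      rw [← Real.rpow_natCast, ← Real.rpow_mul (by linarith), ← Real.rpow_natCast (X ^ ε),
        ← Real.rpow_mul (by linarith), mul_comm]
    -- left side
    have e1 : a ^ n ≤ C * (X ^ ε) ^ n * ∑ f : Fin n → J, rho K (∏ s, w (f s)) := by
      rw [ha, Fintype.sum_pow, mul_sum]
      refine sum_le_sum fun f _ => ?_
      rw [← map_prod]
      refine (hN _).trans ?_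
      apply mul_le_mul_of_nonneg_right _ (rho_pos hK _).le
      apply mul_le_mul_of_nonneg_left _ hC.le
      exact hpowε _ (Nat.cast_nonneg _) (prod_le_pow w X hXw n f)
    -- right side
    have e2 : rho K ((∏ i, D i) ^ n) * ∑ g : Fin n → I, (rho K (∏ s, P (g s)))⁻¹ ≤
        C * (X ^ ε) ^ n * b ^ n := by
      have f1 : rho K ((∏ i, D i) ^ n) ≤ Nm K p ((∏ i, D i) ^ n) := rho_le_Nm hK hp hp1 _
      have f2 : ∀ g : Fin n → I, (rho K (∏ s, P (g s)))⁻¹ ≤
          C * (X ^ ε) ^ n * (Nm K p (∏ s, P (g s)))⁻¹ := by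
        intro g
        have g1 := hN (∏ s, P (g s))
        have g2 := rho_pos hK (∏ s, P (g s))
        have g3 := Nm_pos (K := K) p (∏ s, P (g s))
        rw [inv_le_comm₀ g2 (by positivity), mul_inv, inv_inv, ← div_eq_inv_mul,
          div_le_iff₀ (by positivity)]
        have g4 := hpowε _ (Nat.cast_nonneg _) (prod_le_pow P X hXP n g)
        calc Nm K p (∏ s, P (g s)) ≤ C * ((∏ s, P (g s) : ℕ+) : ℝ) ^ ε *
              rho K (∏ s, P (g s)) := g1
          _ ≤ C * (X ^ ε) ^ n * rho K (∏ s, P (g s)) := by gcongr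
          _ = _ := by ring
      have f3 : (0 : ℝ) ≤ ∑ g : Fin n → I, (rho K (∏ s, P (g s)))⁻¹ :=
        sum_nonneg fun g _ => (inv_pos.2 (rho_pos hK _)).le
      calc rho K ((∏ i, D i) ^ n) * ∑ g : Fin n → I, (rho K (∏ s, P (g s)))⁻¹
          ≤ Nm K p ((∏ i, D i) ^ n) * ∑ g : Fin n → I,
              (C * (X ^ ε) ^ n * (Nm K p (∏ s, P (g s)))⁻¹) := by
            apply mul_le_mul f1 (sum_le_sum fun g _ => f2 g) f3 (Nm_pos _ _).le
        _ = C * (X ^ ε) ^ n * ∑ g : Fin n → I,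
              (Nm K p ((∏ i, D i) ^ n) * (Nm K p (∏ s, P (g s)))⁻¹) := by
            rw [mul_sum, mul_sum]
            refine sum_congr rfl fun g _ => ?_
            ring
        _ = C * (X ^ ε) ^ n * b ^ n := by
            congr 1
            rw [hb, Fintype.sum_pow]
            refine sum_congr rfl fun g _ => ?_
            have h1 : (∏ s, D (g s)) * (∏ s, P (g s)) = (∏ i, D i) ^ n := by
              rw [← prod_mul_distrib]
              simp only [hPD, prod_const, card_univ, Fintype.card_fin]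
            rw [← h1, map_mul, mul_assoc, mul_inv_cancel₀ (Nm_pos _ _).ne', mul_one, map_prod]
    calc a ^ n ≤ C * (X ^ ε) ^ n * ∑ f : Fin n → J, rho K (∏ s, w (f s)) := e1
      _ ≤ C * (X ^ ε) ^ n * (C * (X ^ ε) ^ n * b ^ n) :=
          mul_le_mul_of_nonneg_left (hstep.trans e2) (by positivity)
      _ = C * C * (X ^ ε * X ^ ε * b) ^ n := by rw [mul_pow, mul_pow]; ring
  -- take roots
  have key2 : ∀ ε : ℝ, 0 < ε → a ≤ X ^ ε * X ^ ε * b := by
    intro ε hε
    obtain ⟨C, hC, h1⟩ := key ε hε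
    by_contra hcon
    push Not at hcon
    set c := X ^ ε * X ^ ε * b with hc
    have hXn : (0 : ℝ) < X ^ ε := Real.rpow_pos_of_pos (by linarith) _
    have hc0 : 0 ≤ c := by positivity
    have ha1 : 0 < a := lt_of_le_of_lt hc0 hcon
    have h2 : ∀ n : ℕ, 1 ≤ C * (c / a) ^ n := by
      intro n
      have := h1 n
      have ha2 : 0 < a ^ n := pow_pos ha1 n
      rw [div_pow, ← mul_div_assoc, le_div_iff₀ ha2, one_mul]
      exact this
    have h3 : Filter.Tendsto (fun n : ℕ => C * (c / a) ^ n) Filter.atTop (nhds (C * 0)) := by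
      apply Filter.Tendsto.const_mul
      apply tendsto_pow_atTop_nhds_zero_of_lt_one (by positivity)
      rw [div_lt_one ha1]
      exact hcon
    rw [mul_zero] at h3
    have := ge_of_tendsto' h3 h2
    linarith
  -- `ε → 0`
  have h4 : Filter.Tendsto (fun n : ℕ => X ^ (1 / ((n : ℝ) + 1)) * X ^ (1 / ((n : ℝ) + 1)) * b)
      Filter.atTop (nhds (X ^ (0 : ℝ) * X ^ (0 : ℝ) * b)) := by
    have h5 : Filter.Tendsto (fun n : ℕ => X ^ (1 / ((n : ℝ) + 1))) Filter.atTop
        (nhds (X ^ (0 : ℝ))) :=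
      (Real.continuousAt_const_rpow (by linarith)).tendsto.comp
        (tendsto_one_div_add_atTop_nhds_zero_nat (𝕜 := ℝ))
    exact (h5.mul h5).mul_const _
  rw [Real.rpow_zero, one_mul, one_mul] at h4
  exact ge_of_tendsto' h4 fun n => key2 _ (by positivity)

end Pool.Agent.Helper45.SC1
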